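import Pool.Agent.Lib.MP_c0b3d0_co.Lift

/-!
The balanced Hamilton cycle in the star graph on at least six symbols.
-/

open Equiv Equiv.Perm

namespace Pool.Agent.Lib.MP_c0b3d0_co

variable {m : ℕ} [NeZero m]

/-- A star step with a label different from `p` and `q`. -/
def StpD (p q : ZMod m) (x y : Perm (Option (ZMod m))) : Prop :=
  ∃ r : ZMod m, r ≠ p ∧ r ≠ q ∧ y = x * st r

theorem block (hm : 5 ≤ m) {p q : ZMod m} (hpq : p ≠ q) (x y : Perm (Option (ZMod m)))
    (hp : y (some p) = x (some p)) (hq : y (some q) = x (some q)) (hs : sign x ≠ sign y) :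
    ∃ L, Walk (StpD p q) x y L ∧ L.Nodup ∧ L.length = (m - 1).factorial ∧
      ∀ g, g ∈ L ↔ g (some p) = x (some p) ∧ g (some q) = x (some q) := by
  let T : Finset (Option (ZMod m)) := ((Finset.univ.erase none).erase (some p)).erase (some q)
  have hT : T.card = (m - 5) + 3 := by
    rw [Finset.card_erase_of_mem (by simp [hpq.symm]), Finset.card_erase_of_mem (by simp),
      Finset.card_erase_of_mem (by simp), Finset.card_univ, Fintype.card_option, ZMod.card]
    omega
  have hag : ∀ g, Agree none T x g ↔ g (some p) = x (some p) ∧ g (some q) = x (some q) := by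
    intro g
    constructor
    · intro h
      exact ⟨h _ (by simp [T]) (by simp), h _ (by simp [T]) (by simp)⟩
    · rintro ⟨h1, h2⟩ z h3 h4
      by_cases h5 : z = some p
      · rw [h5, h1]
      · by_cases h6 : z = some q
        · rw [h6, h2]
        · exact absurd (by simp [T, h4, h5, h6]) h3
  obtain ⟨L, h1, h2, h3, h4⟩ := lace none (m - 5) T hT (by simp [T]) x y ((hag y).2 ⟨hp, hq⟩) hs
  refine ⟨L, h1.mono ?_, h2, ?_, fun g => by rw [h4, hag]⟩
  · rintro a b ⟨r, hr, rfl⟩
    simp only [T, Finset.mem_erase, Finset.mem_univ, and_true] at hr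
    obtain ⟨r, rfl⟩ := Option.ne_none_iff_exists'.1 hr.2.2
    exact ⟨r, by simpa using hr.2.1, by simpa using hr.1, rfl⟩
  · rw [h3, hT]
    congr 1
    omega

omit [NeZero m] in
theorem StpD.stp {p q : ZMod m} (x y : Perm (Option (ZMod m))) (h : StpD p q x y) : Stp x y := by
  obtain ⟨r, -, -, rfl⟩ := h
  exact ⟨r, rfl⟩

omit [NeZero m] in
theorem stp_st (x : Perm (Option (ZMod m))) (p : ZMod m) : Stp x (x * st p) := ⟨p, rfl⟩

omit [NeZero m] in
theorem mul_st_st (x : Perm (Option (ZMod m))) (p : ZMod m) : x * st p * st p = x := by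
  rw [mul_assoc, swap_mul_self, mul_one]

omit [NeZero m] in
theorem st_stp (x : Perm (Option (ZMod m))) (p : ZMod m) : Stp (x * st p) x :=
  ⟨p, (mul_st_st x p).symm⟩

theorem sign_mul_st (x : Perm (Option (ZMod m))) (p : ZMod m) : sign (x * st p) = -sign x := by
  rw [Perm.sign_mul, sign_swap (by simp), mul_neg, mul_one]

omit [NeZero m] in
theorem mul_st_none (x : Perm (Option (ZMod m))) (p : ZMod m) : (x * st p) none = x (some p) := by
  rw [Perm.mul_apply, swap_apply_left]

omit [NeZero m] in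
theorem mul_st_self (x : Perm (Option (ZMod m))) (p : ZMod m) : (x * st p) (some p) = x none := by
  rw [Perm.mul_apply, swap_apply_right]

omit [NeZero m] in
theorem mul_st_ne (x : Perm (Option (ZMod m))) {p q : ZMod m} (h : q ≠ p) :
    (x * st p) (some q) = x (some q) := by
  rw [Perm.mul_apply, swap_apply_of_ne_of_ne (by simp) (by simpa using h)]

omit [NeZero m] in
theorem st_inj (x : Perm (Option (ZMod m))) {p q : ZMod m} : x * st p = x * st q ↔ p = q := by
  constructor
  · intro h
    have := congrArg (fun g : Perm (Option (ZMod m)) => g none) h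
    simp only [mul_st_none] at this
    simpa using this
  · rintro rfl; rfl

omit [NeZero m] in
theorem kap_comm (h01 : (0 : ZMod m) ≠ 1) (x : Perm (Option (ZMod m))) {r : ZMod m} (h0 : r ≠ 0)
    (h1 : r ≠ 1) : x * st r * st 1 * st 0 * st 1 = x * st 1 * st 0 * st 1 * st r := by
  have h2 : st (1 : ZMod m) * st 0 * st 1 = swap (some 1) (some 0) := by
    have := swap_mul_swap_mul_swap (x := (some 0 : Option (ZMod m))) (y := none) (z := some 1)
      (by simp) (by simpa using h01)
    rw [swap_comm (some 0) none] at this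
    exact this
  have h3 : swap (some (1 : ZMod m)) (some 0) * st r = st r * swap (some 1) (some 0) := by
    rw [mul_swap_eq_swap_mul, swap_apply_of_ne_of_ne (by simp) (by simp),
      swap_apply_of_ne_of_ne (by simpa using h1) (by simpa using h0)]
  calc x * st r * st 1 * st 0 * st 1 = x * (st r * (st 1 * st 0 * st 1)) := by
        simp only [mul_assoc]
    _ = x * ((st 1 * st 0 * st 1) * st r) := by rw [h2, h3]
    _ = _ := by simp only [mul_assoc]

theorem units_ne_iff {a b : ℤˣ} : a ≠ b ↔ a = -b := by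
  rcases Int.units_eq_one_or a with rfl | rfl <;> rcases Int.units_eq_one_or b with rfl | rfl <;>
    decide

/-- The data of the construction. -/
structure Data (m : ℕ) [NeZero m] where
  hm : 5 ≤ m
  h01 : (0 : ZMod m) ≠ 1
  A : Act m
  y : Perm (Option (ZMod m))
  y0 : y (some 0) = some 0
  y1 : y (some 1) = some 1
  ys : sign y = -1
  Q : Finset (ZMod m)
  hQ : ∀ q ∈ Q, q ≠ 0 ∧ q ≠ 1
  q1 : ZMod m
  hq1 : q1 ∈ Q

namespace Data
variable (D : Data m)

/-- Entry of a column. -/
def ent (u : Perm (Option (ZMod m))) : Perm (Option (ZMod m)) :=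
  if sign u = 1 then u else u * st 1 * st 0 * st 1

/-- Exit of a column. -/
def out (u : Perm (Option (ZMod m))) : Perm (Option (ZMod m)) :=
  if sign u = 1 then u * st 1 * st 0 * st 1 else u

/-- Voltage of a column. -/
def vol (u : Perm (Option (ZMod m))) : ZMod m :=
  ∑ q ∈ D.Q, if u = D.y * st q then (if q = D.q1 then 0 else -q) else 0

/-- Length of a column. -/
def len (u : Perm (Option (ZMod m))) : ℕ :=
  (if u = D.y then 2 else 4) +
    ∑ q ∈ D.Q, if u = D.y * st q then ((m - 1).factorial + if q = D.q1 then 2 else 0) else 0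

/-- The vertices whose orbits are met by a column. -/
def cov (u : Perm (Option (ZMod m))) : Set (Perm (Option (ZMod m))) :=
  {g | (u ≠ D.y ∧ (g = u ∨ g = u * st 1)) ∨ g = u * st 1 * st 0 ∨ g = u * st 1 * st 0 * st 1 ∨
    (∃ q ∈ D.Q, u = D.y * st q ∧ g (some 0) = some 0 ∧ g (some q) = some 1) ∨
    (u = D.y * st D.q1 ∧ (g = D.y ∨ g = D.y * st 1))}

theorem y_ne (q : ZMod m) : D.y ≠ D.y * st q := by
  intro h
  have := congrArg sign h
  rw [sign_mul_st, D.ys] at this
  exact absurd this (by decide)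

theorem seg_last : D.A.Seg (ent D.y) (D.y * st 1 * st 0) (D.vol D.y) (D.len D.y) (D.cov D.y) := by
  have h1 : ent D.y = D.y * st 1 * st 0 * st 1 := by
    unfold ent
    rw [if_neg (by rw [D.ys]; decide)]
  rw [h1]
  refine Act.Seg.of_eq _ (D.A.seg_of_walk (Walk.cons (st_stp _ _) (Walk.single _))) ?_ ?_ ?_
  · simp [vol, D.y_ne]
  · simp [len, D.y_ne]
  · intro g hg
    simp only [cov, D.y_ne, Set.mem_ofPred_eq] at hg
    simp only [Set.mem_ofPred_eq, List.mem_cons]
    tauto

theorem seg_plain (u : Perm (Option (ZMod m))) (hu : u ≠ D.y) (hq : ∀ q ∈ D.Q, u ≠ D.y * st q) :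
    D.A.Seg (ent u) (out u) (D.vol u) (D.len u) (D.cov u) := by
  have hv : 0 = D.vol u := by
    unfold vol
    rw [Finset.sum_eq_zero fun q hq' => if_neg (hq q hq')]
  have hl : 4 = D.len u := by
    unfold len
    rw [Finset.sum_eq_zero fun q hq' => if_neg (hq q hq'), if_neg hu, add_zero]
  have hc : ∀ g ∈ D.cov u, g = u ∨ g = u * st 1 ∨ g = u * st 1 * st 0 ∨
      g = u * st 1 * st 0 * st 1 := by
    rintro g (⟨-, h | h⟩ | h | h | ⟨q, h1, h2, -⟩ | ⟨h, -⟩)
    · tauto
    · tauto
    · tauto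
    · tauto
    · exact absurd h2 (hq q h1)
    · exact absurd h (hq _ D.hq1)
  unfold ent out
  split_ifs with hs
  · refine Act.Seg.of_eq _ (D.A.seg_of_walk (Walk.cons (stp_st _ 1) (Walk.cons (stp_st _ 0)
      (Walk.cons (stp_st _ 1) (Walk.single _))))) hv hl ?_
    intro g hg
    have := hc g hg
    simp only [Set.mem_ofPred_eq, List.mem_cons]
    tauto
  · refine Act.Seg.of_eq _ (D.A.seg_of_walk (Walk.cons (st_stp _ 1) (Walk.cons (st_stp _ 0)
      (Walk.cons (st_stp _ 1) (Walk.single _))))) hv hl ?_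
    intro g hg
    have := hc g hg
    simp only [Set.mem_ofPred_eq, List.mem_cons]
    tauto

theorem vol_special {q : ZMod m} (hq : q ∈ D.Q) :
    D.vol (D.y * st q) = if q = D.q1 then 0 else -q := by
  unfold vol
  simp only [st_inj]
  rw [Finset.sum_ite_eq, if_pos hq]

theorem len_special {q : ZMod m} (hq : q ∈ D.Q) :
    D.len (D.y * st q) = 4 + ((m - 1).factorial + if q = D.q1 then 2 else 0) := by
  unfold len
  simp only [st_inj]
  rw [Finset.sum_ite_eq, if_pos hq, if_neg (D.y_ne q).symm]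

theorem seg_special {q : ZMod m} (hq : q ∈ D.Q) :
    D.A.Seg (ent (D.y * st q)) (out (D.y * st q)) (D.vol (D.y * st q)) (D.len (D.y * st q))
      (D.cov (D.y * st q)) := by
  obtain ⟨hq0, hq1⟩ := D.hQ q hq
  have h01 := D.h01
  rw [D.vol_special hq, D.len_special hq]
  set u := D.y * st q with hu
  have hsu : sign u = 1 := by rw [hu, sign_mul_st, D.ys, neg_neg]
  have u0 : u (some 0) = some 0 := by rw [hu, mul_st_ne _ hq0.symm, D.y0]
  have u1 : u (some 1) = some 1 := by rw [hu, mul_st_ne _ hq1.symm, D.y1]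
  unfold ent out
  rw [if_pos hsu, if_pos hsu]
  have e0 : (u * st 1 * st q : Perm _) (some 0) = some 0 := by
    rw [mul_st_ne _ hq0.symm, mul_st_ne _ h01, u0]
  have e1 : (u * st 1 * st q : Perm _) (some q) = some 1 := by
    rw [mul_st_self, mul_st_none, u1]
  by_cases hqq : q = D.q1
  · rw [if_pos hqq, if_pos hqq]
    have f0 : (D.y * st 1 * st q : Perm _) (some 0) = some 0 := by
      rw [mul_st_ne _ hq0.symm, mul_st_ne _ h01, D.y0]
    have f1 : (D.y * st 1 * st q : Perm _) (some q) = some 1 := by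
      rw [mul_st_self, mul_st_none, D.y1]
    obtain ⟨L, h1, -, h3, h4⟩ := block D.hm hq0.symm (D.y * st 1 * st q) (u * st 1 * st q)
      (by rw [e0, f0]) (by rw [e1, f1]) (by
        simp only [sign_mul_st, hsu, D.ys]; decide)
    rw [f0, f1] at h4
    have s1 := D.A.seg_of_walk
      (Walk.cons (st_stp D.y q) (Walk.cons (stp_st D.y 1) (Walk.single _)))
    have s2 := D.A.seg_of_walk (h1.mono StpD.stp)
    have s3 := D.A.seg_of_walk
      (Walk.cons (stp_st (u * st 1) 0) (Walk.cons (stp_st _ 1) (Walk.single _)))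
    refine Act.Seg.of_eq _ (Act.Seg.append _ (Act.Seg.append _ s1 (stp_st _ q) s2)
      (st_stp _ q) s3) (by simp) ?_ ?_
    · simp only [List.length_cons, List.length_nil, h3]
      omega
    · intro g hg
      simp only [Set.mem_union, Set.mem_ofPred_eq, List.mem_cons, h4]
      rcases hg with ⟨-, h | h⟩ | h | h | ⟨q', -, h2, h5⟩ | ⟨-, h⟩
      · tauto
      · tauto
      · tauto
      · tauto
      · rw [hu, st_inj] at h2
        subst h2
        tauto
      · tauto
  · rw [if_neg hqq, if_neg hqq]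
    have g0 : (u * st 1 * st 0 : Perm _) none = some 0 := by
      rw [mul_st_none, mul_st_ne _ h01, u0]
    have g1 : (u * st 1 * st 0 : Perm _) (some 0) = some 1 := by
      rw [mul_st_self, mul_st_none, u1]
    have f0 : (D.A.F (-q) (u * st 1 * st 0) * st 0 : Perm _) (some 0) = some 0 := by
      rw [mul_st_self, D.A.val_none _ _ _ (Or.inl rfl) g0]
    have f1 : (D.A.F (-q) (u * st 1 * st 0) * st 0 : Perm _) (some q) = some 1 := by
      have := D.A.val_some (-q) _ _ _ (Or.inr rfl) g1
      rw [zero_sub, neg_neg] at this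
      rw [mul_st_ne _ hq0, this]
    obtain ⟨L, h1, -, h3, h4⟩ := block D.hm hq0.symm (u * st 1 * st q)
      (D.A.F (-q) (u * st 1 * st 0) * st 0) (by rw [e0, f0]) (by rw [e1, f1]) (by
        simp only [sign_mul_st, hsu, D.A.sgn]; decide)
    rw [e0, e1] at h4
    have s1 := D.A.seg_of_walk (Walk.cons (stp_st u 1) (Walk.single _))
    have s2 := D.A.seg_of_walk (h1.mono StpD.stp)
    have s3 : D.A.Seg (D.A.F (-q) (u * st 1 * st 0)) (u * st 1 * st 0 * st 1) (-q) 2
        {u * st 1 * st 0, u * st 1 * st 0 * st 1} := by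
      refine ⟨_, Walk.cons (D.A.stp _ (stp_st _ 1)) (Walk.single _), rfl, ?_⟩
      rintro g (rfl | rfl)
      · exact ⟨-q, by simp⟩
      · exact ⟨-q, by simp⟩
    refine Act.Seg.of_eq _ (Act.Seg.append _ (Act.Seg.append _ s1 (stp_st _ q) s2)
      (st_stp _ 0) s3) (by simp) ?_ ?_
    · simp only [List.length_cons, List.length_nil, h3]
      omega
    · intro g hg
      simp only [Set.mem_union, Set.mem_ofPred_eq, List.mem_cons, h4, Set.mem_insert_iff,
        Set.mem_singleton_iff]
      rcases hg with ⟨-, h | h⟩ | h | h | ⟨q', -, h2, h5⟩ | ⟨h, -⟩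
      · tauto
      · tauto
      · tauto
      · tauto
      · rw [hu, st_inj] at h2
        subst h2
        tauto
      · rw [hu, st_inj] at h
        exact absurd h hqq

theorem seg_col (u : Perm (Option (ZMod m))) (hu : u ≠ D.y) :
    D.A.Seg (ent u) (out u) (D.vol u) (D.len u) (D.cov u) := by
  by_cases h : ∃ q ∈ D.Q, u = D.y * st q
  · obtain ⟨q, hq, rfl⟩ := h
    exact D.seg_special hq
  · push Not at h
    exact D.seg_plain u hu h

include D in
theorem stp_out_ent {u v : Perm (Option (ZMod m))} (h : StpD 0 1 u v) : Stp (out u) (ent v) := by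
  obtain ⟨r, h0, h1, rfl⟩ := h
  unfold out ent
  rw [sign_mul_st]
  by_cases hs : sign u = 1
  · rw [if_pos hs, if_neg (by rw [hs]; decide), kap_comm D.h01 u h0 h1]
    exact stp_st _ _
  · rw [if_neg hs, if_pos (by rw [units_ne_iff.1 hs, neg_neg])]
    exact stp_st _ _

theorem seg_walk {x z : Perm (Option (ZMod m))} {L : List (Perm (Option (ZMod m)))}
    (h : Walk (StpD 0 1) x z L) (hz : z = D.y) (hL : L.Nodup) :
    D.y ∈ L ∧ D.A.Seg (ent x) (D.y * st 1 * st 0) (L.map D.vol).sum (L.map D.len).sum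
      {g | ∃ u ∈ L, g ∈ D.cov u} := by
  induction h with
  | single x =>
    subst hz
    exact ⟨by simp, Act.Seg.of_eq _ D.seg_last (by simp) (by simp) (by simp)⟩
  | @cons x x' z L hr _ ih =>
    obtain ⟨h1, h2⟩ := ih hz (List.nodup_cons.1 hL).2
    have hx : x ≠ D.y := by
      rintro rfl
      exact (List.nodup_cons.1 hL).1 h1
    refine ⟨List.mem_cons_of_mem _ h1, Act.Seg.of_eq _
      (Act.Seg.append _ (D.seg_col x hx) (D.stp_out_ent hr) h2) (by simp) (by simp) ?_⟩
    rintro g ⟨u, hu, hg⟩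
    rcases List.mem_cons.1 hu with rfl | hu
    · exact Or.inl hg
    · exact Or.inr ⟨u, hu, hg⟩

end Data

omit [NeZero m] in
theorem small_ne_zero (hm : 5 ≤ m) (a : ℕ) (h0 : 0 < a) (h5 : a < 5) : (a : ZMod m) ≠ 0 := by
  rw [Ne, ZMod.natCast_eq_zero_iff]
  intro h
  have := Nat.le_of_dvd h0 h
  omega

theorem seg_big (hm : 5 ≤ m) : ∃ (A : Act m) (x z : Perm (Option (ZMod m))) (c d : ZMod m)
    (S : Set (Perm (Option (ZMod m)))), A.Seg x z c ((m + 1) * (m - 1).factorial) S ∧
      Stp z (A.F d x) ∧ (∀ g, ∃ j, A.F j g ∈ S) ∧ IsUnit (c + d) := by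
  have n1 : (1 : ZMod m) ≠ 0 := by simpa using small_ne_zero hm 1 (by omega) (by omega)
  have n2 : (2 : ZMod m) ≠ 0 := by simpa using small_ne_zero hm 2 (by omega) (by omega)
  have n3 : (3 : ZMod m) ≠ 0 := by simpa using small_ne_zero hm 3 (by omega) (by omega)
  have n21 : (2 : ZMod m) ≠ 1 := fun h => n1 (by linear_combination h)
  have nm0 : (-1 : ZMod m) ≠ 0 := neg_ne_zero.2 n1
  have nm1 : (-1 : ZMod m) ≠ 1 := fun h => n2 (by linear_combination -h)
  obtain ⟨A⟩ := exists_act n2 n21
  let Q : Finset (ZMod m) := ((Finset.univ.erase 0).erase 1).erase (-1)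
  have hQ : ∀ q, q ∈ Q ↔ q ≠ 0 ∧ q ≠ 1 ∧ q ≠ -1 := by
    intro q
    simp only [Q, Finset.mem_erase, Finset.mem_univ]
    tauto
  have hQc : Q.card = m - 3 := by
    rw [Finset.card_erase_of_mem (by simp [nm0, nm1]), Finset.card_erase_of_mem (by simp [n1]),
      Finset.card_erase_of_mem (by simp), Finset.card_univ, ZMod.card]
    omega
  have hS : ∑ q ∈ Q, q = -∑ q ∈ Q, q := by
    rw [← Finset.sum_neg_distrib]
    refine Finset.sum_nbij' (fun q => -q) (fun q => -q) ?_ ?_ (by simp) (by simp) (by simp)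
    · intro q hq
      rw [hQ] at hq ⊢
      exact ⟨neg_ne_zero.2 hq.1, fun h => hq.2.2 (by rw [← h, neg_neg]),
        fun h => hq.2.1 (neg_injective h)⟩
    · intro q hq
      rw [hQ] at hq ⊢
      exact ⟨neg_ne_zero.2 hq.1, fun h => hq.2.2 (by rw [← h, neg_neg]),
        fun h => hq.2.1 (neg_injective h)⟩
  obtain ⟨q1, hq1, hunit⟩ : ∃ q1 ∈ Q, IsUnit (q1 - ∑ q ∈ Q, q + 1) := by
    by_cases h0 : ∑ q ∈ Q, q = 0
    · refine ⟨-2, (hQ _).2 ⟨neg_ne_zero.2 n2, fun h => n3 (by linear_combination -h),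
        fun h => n1 (by linear_combination -h)⟩, ?_⟩
      rw [h0]
      have : (-2 - 0 + 1 : ZMod m) = -1 := by ring
      rw [this]
      exact isUnit_one.neg
    · refine ⟨∑ q ∈ Q, q, (hQ _).2 ⟨h0, fun h => ?_, fun h => ?_⟩, by simp⟩
      · rw [h] at hS; exact nm1 hS.symm
      · rw [h, neg_neg] at hS; exact nm1 hS
  have z0 : A.F 1 (1 * st 0) none = some 0 :=
    A.val_none _ _ _ (Or.inl rfl) (by rw [mul_st_none]; rfl)
  have z1 : A.F 1 (1 * st 0) (some 0) = some 1 := by
    have := A.val_some 1 (1 * st 0) 1 1 (Or.inr rfl) (by rw [mul_st_ne _ n1]; rfl)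
    rwa [sub_self] at this
  let D : Data m :=
    { hm := hm, h01 := n1.symm, A := A, y := A.F 1 (1 * st 0) * st 0 * st 1
      y0 := by rw [mul_st_ne _ n1.symm, mul_st_self, z0]
      y1 := by rw [mul_st_self, mul_st_none, z1]
      ys := by simp only [sign_mul_st, A.sgn, Perm.sign_one, neg_neg]
      Q := Q, hQ := fun q hq => ⟨((hQ q).1 hq).1, ((hQ q).1 hq).2.1⟩, q1 := q1, hq1 := hq1 }
  obtain ⟨L, h1, h2, h3, h4⟩ := block hm n1.symm 1 D.y D.y0 D.y1 (by
    rw [D.ys, Perm.sign_one]; decide)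
  simp only [Perm.one_apply] at h4
  obtain ⟨hy, hseg⟩ := D.seg_walk h1 rfl h2
  have hspec : ∀ q ∈ Q, D.y * st q ∈ L := by
    intro q hq
    obtain ⟨a0, a1, -⟩ := (hQ q).1 hq
    rw [h4, mul_st_ne _ a0.symm, mul_st_ne _ a1.symm]
    exact ⟨D.y0, D.y1⟩
  have hvol : (L.map D.vol).sum = q1 - ∑ q ∈ Q, q := by
    rw [← List.sum_toFinset _ h2]
    unfold Data.vol
    rw [Finset.sum_comm]
    have : ∀ q ∈ D.Q, (∑ u ∈ L.toFinset, if u = D.y * st q then (if q = D.q1 then 0 else -q)
        else 0) = (if q = q1 then q else 0) - q := by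
      intro q hq
      rw [Finset.sum_ite_eq', if_pos (List.mem_toFinset.2 (hspec q hq))]
      show (if q = q1 then 0 else -q) = _
      split_ifs <;> simp
    rw [Finset.sum_congr rfl this, Finset.sum_sub_distrib, Finset.sum_ite_eq', if_pos hq1]
  have hlen : (L.map D.len).sum = (m + 1) * (m - 1).factorial := by
    rw [← List.sum_toFinset _ h2]
    unfold Data.len
    rw [Finset.sum_add_distrib, Finset.sum_comm]
    have e1 : ∀ q ∈ D.Q, (∑ u ∈ L.toFinset, if u = D.y * st q then
        ((m - 1).factorial + if q = D.q1 then 2 else 0) else 0) =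
          (m - 1).factorial + if q = q1 then 2 else 0 := by
      intro q hq
      rw [Finset.sum_ite_eq', if_pos (List.mem_toFinset.2 (hspec q hq))]
    rw [Finset.sum_congr rfl e1, Finset.sum_add_distrib, Finset.sum_ite_eq', if_pos hq1,
      Finset.sum_const]
    have e2 : (∑ u ∈ L.toFinset, if u = D.y then 2 else 4) +
        (∑ u ∈ L.toFinset, if u = D.y then 2 else 0) = ∑ _u ∈ L.toFinset, 4 := by
      rw [← Finset.sum_add_distrib]
      refine Finset.sum_congr rfl fun u _ => ?_
      split_ifs <;> rfl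
    rw [Finset.sum_ite_eq', if_pos (List.mem_toFinset.2 hy), Finset.sum_const,
      List.toFinset_card_of_nodup h2, h3] at e2
    have e3 : D.Q.card = m - 3 := hQc
    rw [e3]
    simp only [smul_eq_mul] at e2 ⊢
    obtain ⟨k, rfl⟩ : ∃ k, m = k + 3 := ⟨m - 3, by omega⟩
    simp only [Nat.add_sub_cancel] at e2 ⊢
    nlinarith
  rw [hvol, hlen] at hseg
  have hent : Data.ent (1 : Perm (Option (ZMod m))) = 1 := by
    unfold Data.ent
    rw [if_pos Perm.sign_one]
  rw [hent] at hseg
  refine ⟨A, _, _, _, 1, _, hseg, ?_, ?_, hunit⟩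
  · show Stp (A.F 1 (1 * st 0) * st 0 * st 1 * st 1 * st 0) _
    rw [mul_st_st, mul_st_st, A.step]
    exact st_stp _ _
  · have c1 : ∀ u ∈ L, ∀ g, (g = u ∨ g = u * st 1) → g ∈ {g | ∃ u ∈ L, g ∈ D.cov u} := by
      intro u hu g hg
      by_cases h : u = D.y
      · subst h
        exact ⟨_, hspec q1 hq1, Or.inr (Or.inr (Or.inr (Or.inr ⟨rfl, hg⟩)))⟩
      · exact ⟨u, hu, Or.inl ⟨h, hg⟩⟩
    intro g
    have hne : g⁻¹ (some 0) ≠ g⁻¹ (some 1) := fun h => n1 (by
      have := g⁻¹.injective h
      simpa using this.symm)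
    have ha := app_inv g (some 0)
    have hb := app_inv g (some 1)
    generalize g⁻¹ (some 0) = a at hne ha
    generalize g⁻¹ (some 1) = b at hne hb
    cases a with
    | none =>
      cases b with
      | none => exact absurd rfl hne
      | some b =>
        have e0 := A.val_none b g 0 (Or.inl rfl) ha
        have e1 := A.val_some b g b 1 (Or.inr rfl) hb
        rw [sub_self] at e1
        refine ⟨b, A.F b g * st 0 * st 1, ?_, Or.inr (Or.inl ?_)⟩
        · rw [h4, mul_st_ne _ n1.symm, mul_st_self, mul_st_self, mul_st_none]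
          exact ⟨e0, e1⟩
        · rw [mul_st_st, mul_st_st]
    | some a =>
      have e0 := A.val_some a g a 0 (Or.inl rfl) ha
      rw [sub_self] at e0
      cases b with
      | none =>
        have e1 := A.val_none a g 1 (Or.inr rfl) hb
        refine ⟨a, c1 (A.F a g * st 1) ?_ _ (Or.inr (mul_st_st _ _).symm)⟩
        rw [h4, mul_st_ne _ n1.symm, mul_st_self]
        exact ⟨e0, e1⟩
      | some b =>
        have e1 := A.val_some a g b 1 (Or.inr rfl) hb
        have hab : b - a ≠ 0 := fun h => hne (by rw [sub_eq_zero.1 h])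
        by_cases hq : b - a = 1
        · rw [hq] at e1
          exact ⟨a, c1 (A.F a g) ((h4 _).2 ⟨e0, e1⟩) _ (Or.inl rfl)⟩
        · by_cases hq' : b - a = -1
          · have f0 := A.val_some b g a 0 (Or.inl rfl) ha
            have f1 := A.val_some b g b 1 (Or.inr rfl) hb
            have hba : a - b = 1 := by linear_combination -hq'
            rw [sub_self] at f1
            rw [hba] at f0
            refine ⟨b, A.F b g * st 1 * st 0 * st 1, ?_, Or.inr (Or.inr (Or.inl ?_))⟩
            · rw [h4, mul_st_ne _ n1.symm, mul_st_self, mul_st_none, mul_st_self, mul_st_none,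
                mul_st_ne _ n1.symm]
              exact ⟨f0, f1⟩
            · rw [mul_st_st, mul_st_st, mul_st_st]
          · have hq'' := (hQ _).2 ⟨hab, hq, hq'⟩
            exact ⟨a, _, hspec _ hq'', Or.inr (Or.inr (Or.inr (Or.inl ⟨_, hq'', rfl, e0, e1⟩)))⟩

theorem bal_big (hm : 5 ≤ m) :
    Bal (none : Option (ZMod m)) (m * ((m + 1) * (m - 1).factorial))
      ((m + 1) * (m - 1).factorial) := by
  obtain ⟨A, x, z, c, d, S, h1, h2, h3, h4⟩ := seg_big hm
  exact A.lift h1 h2 h3 h4

end Pool.Agent.Lib.MP_c0b3d0_co
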