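import Pool.Agent.Lib.MP_c0b3d0_co.Final

/-!
Star transposition Gray codes whose flip sequence consists of `n - 1` blocks, each obtained from
the previous one by a cyclic shift of the positions.
-/

open Equiv Equiv.Perm

namespace Pool.Agent.Lib.MP_c0b3d0_co

section
variable {m : ℕ} [NeZero m] (A : Act m)

/-- Lifting a transversal path to an invariant walk. -/
theorem Act.lift_inv {x z : Perm (Option (ZMod m))} {c d : ZMod m} {M : ℕ}
    {S : Set (Perm (Option (ZMod m)))} (h : A.Seg x z c M S) (hz : Stp z (A.F d x))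
    (hS : ∀ g, ∃ j, A.F j g ∈ S) (hu : IsUnit (c + d)) :
    ∃ (π : ℕ → Perm (Option (ZMod m))) (s : ℕ → ZMod m), (∀ j, π (j + 1) = π j * st (s j)) ∧
      π (m * M) = π 0 ∧ (∀ g, ∃ j < m * M, π j = g) ∧ ∀ j, s (j + M) = s j - (c + d) := by
  obtain ⟨L, h1, h2, h3⟩ := h
  have h4 : Walk Stp x (A.F (c + d) x) (L ++ [A.F (c + d) x]) :=
    h1.append (by rw [A.add]; exact A.stp c hz) (Walk.single _)
  obtain ⟨v', -, -, hM, -, -⟩ := h1.exists_fun
  rw [h2] at hM
  obtain ⟨v, v0, v1, -, v2, v3⟩ := h4.exists_fun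
  simp only [List.length_append, List.length_singleton, h2, Nat.add_sub_cancel] at v1 v2 v3
  obtain ⟨u, hu⟩ := hu.exists_right_inv
  set e := c + d with he
  have v4 : ∀ t, ∃ p : ZMod m, t < M → v (t + 1) = v t * st p := by
    intro t
    by_cases ht : t < M
    · obtain ⟨p, hp⟩ := v2 t (by omega)
      exact ⟨p, fun _ => hp⟩
    · exact ⟨0, fun h => absurd h ht⟩
  choose lab hlab using v4
  have hcov : ∀ g, ∃ j, ∃ t < M, g = A.F j (v t) := by
    intro g
    obtain ⟨j, hj⟩ := hS g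
    obtain ⟨j', hj'⟩ := h3 _ hj
    obtain ⟨t, ht, hv⟩ := v3 _ (List.mem_append_left _ hj')
    by_cases htM : t < M
    · refine ⟨-(j' + j), t, htM, ?_⟩
      rw [hv, ← A.add, ← A.add, ← A.zero g]
      rw [← A.add]
      congr 1
      ring
    · have : t = M := by omega
      subst this
      refine ⟨-(j' + j) + e, 0, hM, ?_⟩
      rw [A.add, v0, ← v1, hv, ← A.add, ← A.add, ← A.zero g, ← A.add]
      congr 1
      ring
  refine ⟨fun t => A.F (((t / M : ℕ) : ZMod m) * e) (v (t % M)),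
    fun t => lab (t % M) - ((t / M : ℕ) : ZMod m) * e, ?_, ?_, ?_, ?_⟩
  · intro t
    have hr : t % M < M := Nat.mod_lt _ hM
    have h5 := hlab (t % M) hr
    show A.F _ _ = A.F _ _ * st _
    rw [← A.step, ← h5]
    have hdiv := Nat.div_add_mod t M
    by_cases h6 : t % M + 1 < M
    · have h7 : (t + 1) / M = t / M := by
        rw [Nat.div_eq_iff hM]
        constructor
        · rw [mul_comm]; omega
        · rw [mul_comm]; omega
      have h8 : (t + 1) % M = t % M + 1 := by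
        have := Nat.div_add_mod (t + 1) M
        rw [h7] at this
        omega
      rw [h7, h8]
    · have h9 : t % M + 1 = M := by omega
      have h10 : t + 1 = M * (t / M + 1) := by rw [mul_add]; omega
      have h7 : (t + 1) / M = t / M + 1 := by rw [h10, Nat.mul_div_cancel_left _ hM]
      have h8 : (t + 1) % M = 0 := by rw [h10, Nat.mul_mod_right]
      rw [h7, h8, h9, v1, v0, ← A.add]
      congr 1
      push_cast
      ring
  · simp only [Nat.mul_div_cancel _ hM, Nat.mul_mod_left, Nat.zero_div, Nat.zero_mod,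
      ZMod.natCast_self, Nat.cast_zero]
  · intro g
    obtain ⟨j, t, ht, rfl⟩ := hcov g
    have a1 : ((j * u).val * M + t) / M = (j * u).val := by
      rw [add_comm, Nat.add_mul_div_right _ _ hM, Nat.div_eq_of_lt ht, zero_add]
    have a2 : ((j * u).val * M + t) % M = t := by
      rw [add_comm, Nat.add_mul_mod_self_right, Nat.mod_eq_of_lt ht]
    have a4 : (((j * u).val : ℕ) : ZMod m) * e = j := by
      rw [ZMod.natCast_zmod_val, mul_assoc, mul_comm u e, hu, mul_one]
    refine ⟨(j * u).val * M + t, ?_, by simp only [a1, a2, a4]⟩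
    have := ZMod.val_lt (j * u)
    nlinarith
  · intro t
    simp only [Nat.add_div_right _ hM, Nat.add_mod_right]
    push_cast
    ring

end

/-- A closed star walk of length `n !` through all permutations whose labels move up by one
position, cyclically, after `M` steps. -/
def Cyc (n : ℕ) [NeZero n] (M : ℕ) : Prop :=
  ∃ (π : ℕ → Perm (Fin n)) (s : ℕ → Fin n),
    (∀ j < n.factorial, s j ≠ 0 ∧ π (j + 1) = π j * swap 0 (s j)) ∧ π n.factorial = π 0 ∧
      (∀ g, ∃ j < n.factorial, π j = g) ∧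
        ∀ j < n.factorial, (s ((j + M) % n.factorial)).val = (s j).val % (n - 1) + 1

theorem cyc_big (k : ℕ) (hk : 5 ≤ k + 1) : Cyc (k + 2) ((k + 2) * k.factorial) := by
  obtain ⟨A, x, z, c, d, S, h1, h2, h3, h4⟩ := seg_big (m := k + 1) hk
  obtain ⟨π, s, a1, a2, a3, a4⟩ := A.lift_inv h1 h2 h3 h4
  obtain ⟨e, he⟩ := h4
  rw [← he] at a4
  have hN : (k + 1) * ((k + 1 + 1) * (k + 1 - 1).factorial) = (k + 2).factorial := by
    rw [Nat.factorial_succ, Nat.factorial_succ, Nat.add_sub_cancel]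
    ring
  have a5 : ∀ a j : ℕ, s (j + a * ((k + 1 + 1) * (k + 1 - 1).factorial)) = s j - a * e := by
    intro a j
    induction a with
    | zero => simp
    | succ a ih =>
      rw [add_mul, one_mul, ← add_assoc, a4, ih]
      push_cast
      ring
  have a6 : Function.Periodic s (k + 2).factorial := fun j => by
    rw [← hN, a5, ZMod.natCast_self, zero_mul, sub_zero]
  rw [hN] at a2 a3
  let ψ : ZMod (k + 1) ≃ Fin (k + 1) := Units.mulLeft (-e⁻¹)
  let φ := (Equiv.optionCongr ψ).trans (finSuccEquiv (k + 1)).symm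
  have φ0 : φ none = 0 := finSuccEquiv_symm_none
  have φ1 : ∀ p, (φ (some p)).val = (((-e⁻¹ : (ZMod (k + 1))ˣ) : ZMod (k + 1)) * p).val + 1 :=
    fun p => congrArg Fin.val (finSuccEquiv_symm_some (ψ p))
  refine ⟨fun j => φ.permCongr (π j), fun j => φ (some (s j)), fun j _ => ⟨?_, ?_⟩,
    by simp only [a2], fun g => ?_, fun j _ => ?_⟩
  · rw [← φ0]
    exact φ.injective.ne (by simp)
  · simp only [a1]
    ext y
    obtain ⟨x, rfl⟩ := φ.surjective y
    simp only [permCongr_apply, symm_apply_apply, Perm.mul_apply]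
    rw [← φ0, ← φ.injective.map_swap, symm_apply_apply]
  · obtain ⟨j, hj, hg⟩ := a3 (φ.permCongr.symm g)
    exact ⟨j, hj, by simp only [hg, apply_symm_apply]⟩
  · have a7 : s (j + (k + 2) * k.factorial) = s j - e := a4 j
    have a8 : ((-e⁻¹ : (ZMod (k + 1))ˣ) : ZMod (k + 1)) * (s j - e) =
        (-e⁻¹ : (ZMod (k + 1))ˣ) * s j + 1 := by
      rw [mul_sub, Units.val_neg, neg_mul _ (e : ZMod (k + 1)), Units.inv_mul, sub_neg_eq_add]
    show (φ (some (s _))).val = (φ (some (s j))).val % (k + 1) + 1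
    rw [a6.map_mod_nat, a7, φ1, φ1, a8, ZMod.val_add, ZMod.val_one_eq_one_mod, Nat.add_mod_mod]

theorem cyc_of_list (n : ℕ) [NeZero n] (l : List (Fin n)) (M : ℕ) (h0 : l.length = n.factorial)
    (h1 : ∀ i ∈ l, i ≠ 0) (h2 : endL 0 1 l = 1) (h3 : ∀ g, g ∈ walkL 0 1 l)
    (h4 : ∀ j < n.factorial,
      (l.getD ((j + M) % n.factorial) 0).val = (l.getD j 0).val % (n - 1) + 1) : Cyc n M := by
  refine ⟨fun j => endL 0 1 (l.take j), fun j => l.getD j 0, ?_, ?_, ?_, h4⟩
  · intro j hj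
    rw [← h0] at hj
    have h5 : l.getD j 0 = l[j] := by simp [List.getD, hj]
    refine ⟨by show l.getD j 0 ≠ 0; rw [h5]; exact h1 _ (List.getElem_mem hj), ?_⟩
    show endL 0 1 (l.take (j + 1)) = endL 0 1 (l.take j) * swap 0 (l.getD j 0)
    rw [h5, List.take_succ_eq_append_getElem hj, endL_append]
    rfl
  · show endL 0 1 (l.take n.factorial) = endL 0 1 (l.take 0)
    rw [← h0, List.take_length, h2]
    rfl
  · intro g
    obtain ⟨j, hj, he⟩ := mem_walkL 0 l 1 g (h3 g)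
    rcases hj.lt_or_eq with hj | hj
    · exact ⟨j, h0 ▸ hj, he⟩
    · refine ⟨0, n.factorial_pos, ?_⟩
      rw [← he, hj, List.take_length, h2]
      rfl

theorem cyc_three : Cyc 3 3 :=
  cyc_of_list 3 [1, 2, 1, 2, 1, 2] 3 rfl (by decide) (by decide +kernel) (by decide +kernel)
    (by decide +kernel)

/-- A code for five symbols in four blocks. -/
def cyc5 : List (Fin 5) :=
  [1, 2, 1, 2, 1, 3, 1, 2, 1, 2, 1, 3, 4, 2, 4, 2, 4, 1, 4, 1, 2, 1, 4, 3, 2, 4, 3, 1, 3, 1,
   2, 3, 2, 3, 2, 4, 2, 3, 2, 3, 2, 4, 1, 3, 1, 3, 1, 2, 1, 2, 3, 2, 1, 4, 3, 1, 4, 2, 4, 2,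
   3, 4, 3, 4, 3, 1, 3, 4, 3, 4, 3, 1, 2, 4, 2, 4, 2, 3, 2, 3, 4, 3, 2, 1, 4, 2, 1, 3, 1, 3,
   4, 1, 4, 1, 4, 2, 4, 1, 4, 1, 4, 2, 3, 1, 3, 1, 3, 4, 3, 4, 1, 4, 3, 2, 1, 3, 2, 4, 2, 4]

theorem cyc5_cover : ∀ g, g ∈ walkL (0 : Fin 5) 1 cyc5 := by
  have h1 : ((walkL (0 : Fin 5) 1 cyc5).map code5).tail.Nodup := by
    rw [walkC_eq]
    decide +kernel
  rw [← List.map_tail] at h1
  have h2 := List.Nodup.of_map _ h1
  have h3 : (walkL (0 : Fin 5) 1 cyc5).tail.toFinset = Finset.univ := by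
    apply Finset.eq_univ_of_card
    rw [List.toFinset_card_of_nodup h2, Fintype.card_perm]
    decide +kernel
  intro g
  apply List.mem_of_mem_tail
  rw [← List.mem_toFinset, h3]
  exact Finset.mem_univ _

theorem cyc_five : Cyc 5 30 :=
  cyc_of_list 5 cyc5 30 rfl (by decide +kernel) (by decide +kernel) cyc5_cover
    (by decide +kernel)

theorem cyc_fin (n : ℕ) [NeZero n] (hn : 3 ≤ n) (h4 : n ≠ 4) :
    Cyc n (n * (n - 2).factorial) := by
  by_cases h3 : n = 3
  · subst h3; exact cyc_three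
  by_cases h5 : n = 5
  · subst h5; exact cyc_five
  obtain ⟨k, rfl⟩ : ∃ k, n = k + 2 := ⟨n - 2, by omega⟩
  exact cyc_big k (by omega)

theorem bal_of_cyc_four (s : ZMod 24 → Fin 4) (h0 : ∀ j, s j ≠ 0)
    (h : ∀ j, (s (j + 8)).val = (s j).val % 3 + 1) (i : Fin 4) (hi : i ≠ 0) :
    {j | s j = i}.ncard = 8 := by
  have h1 : ∀ a b : Fin 4, b.val = a.val % 3 + 1 → {j | s j = a}.ncard ≤ {j | s j = b}.ncard :=
    fun a b hab => Set.ncard_le_ncard_of_injOn (fun j => j + 8) (fun j hj => Fin.ext (by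
      have h2 : s j = a := hj
      rw [h, h2, hab])) (add_left_injective 8).injOn
  have h2 : ∀ a : Fin 4, {j | s j = a}.ncard = (Finset.univ.filter fun j => s j = a).card :=
    fun a => by rw [← Set.ncard_coe_finset, Finset.coe_filter_univ]
  have h3 := Finset.card_eq_sum_card_fiberwise (f := s) (s := Finset.univ) (t := Finset.univ)
    fun _ _ => Finset.mem_univ _
  have h4 : {j | s j = 0}.ncard = 0 := by simp [h0]
  rw [Finset.card_univ, ZMod.card, Fin.sum_univ_four, ← h2, ← h2, ← h2, ← h2] at h3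
  have h5 := h1 1 2 rfl
  have h6 := h1 2 3 rfl
  have h7 := h1 3 1 rfl
  have h8 : ∀ i : Fin 4, i ≠ 0 → i = 1 ∨ i = 2 ∨ i = 3 := by decide
  rcases h8 i hi with rfl | rfl | rfl <;> omega

theorem main_cyc (n : ℕ) [NeZero n] (hn : 3 ≤ n) :
    (∃ (π : ZMod n.factorial → Perm (Fin n)) (s : ZMod n.factorial → Fin n),
      (Function.Bijective π ∧ ∀ j, s j ≠ 0 ∧ π (j + 1) = π j * swap 0 (s j)) ∧
        ∀ j, (s (j + (n * (n - 2).factorial : ℕ))).val = (s j).val % (n - 1) + 1) ↔ n ≠ 4 := by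
  have : NeZero n.factorial := ⟨Nat.factorial_ne_zero n⟩
  constructor
  · rintro ⟨π, s, h1, h2⟩ rfl
    exact (main 4 hn).1 ⟨π, s, h1, bal_of_cyc_four s (fun j => (h1.2 j).1) h2⟩ rfl
  · intro h4
    obtain ⟨π, s, h1, h2, h3, h5⟩ := cyc_fin n hn h4
    refine ⟨fun z => π z.val, fun z => s z.val, ⟨?_, ?_⟩, ?_⟩
    · rw [Fintype.bijective_iff_surjective_and_card]
      refine ⟨fun g => ?_, by rw [ZMod.card, Fintype.card_perm, Fintype.card_fin]⟩
      obtain ⟨j, hj, hg⟩ := h3 g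
      exact ⟨(j : ZMod n.factorial), by
        show π (j : ZMod n.factorial).val = g
        rw [ZMod.val_natCast, Nat.mod_eq_of_lt hj, hg]⟩
    · intro z
      obtain ⟨h6, h7⟩ := h1 z.val (ZMod.val_lt z)
      exact ⟨h6, (val_step π h2 z).trans h7⟩
    · intro z
      show (s (ZMod.val _)).val = _
      rw [ZMod.val_add, ZMod.val_natCast, Nat.add_mod_mod]
      exact h5 _ (ZMod.val_lt z)

end Pool.Agent.Lib.MP_c0b3d0_co
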