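import Pool.Agent.Lib.MP_c0b3d0_co.Lift

/-!
The cases of three, four and five symbols.
-/

open Equiv Equiv.Perm

namespace Pool.Agent.Lib.MP_c0b3d0_co

section
variable {X : Type} [DecidableEq X]

theorem endL_append (o : X) (l l' : List X) (g : Perm X) :
    endL o g (l ++ l') = endL o (endL o g l) l' := by
  induction l generalizing g with
  | nil => rfl
  | cons i l ih => exact ih _

theorem mem_walkL (o : X) (l : List X) (g h : Perm X) (hh : h ∈ walkL o g l) :
    ∃ j ≤ l.length, endL o g (l.take j) = h := by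
  induction l generalizing g with
  | nil => exact ⟨0, le_rfl, by simpa [walkL, endL, eq_comm] using hh⟩
  | cons i l ih =>
    rcases List.mem_cons.1 hh with rfl | hh
    · exact ⟨0, by simp, rfl⟩
    · obtain ⟨j, hj, he⟩ := ih _ hh
      exact ⟨j + 1, by simpa using hj, he⟩

theorem bal_of_list (o : X) (l : List X) (M : ℕ) (h0 : 0 < l.length) (h1 : ∀ i ∈ l, i ≠ o)
    (h2 : endL o 1 l = 1) (h3 : ∀ g, g ∈ walkL o 1 l)
    (h4 : ∀ i, i ≠ o → ((Finset.range l.length).filter (fun j => l.getD j o = i)).card = M) :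
    Bal o l.length M := by
  refine ⟨fun j => endL o 1 (l.take j), fun j => l.getD j o, ?_, ?_, ?_, h4⟩
  · intro j hj
    have h5 : l.getD j o = l[j] := by simp [List.getD, hj]
    refine ⟨by show l.getD j o ≠ o; rw [h5]; exact h1 _ (List.getElem_mem hj), ?_⟩
    show endL o 1 (l.take (j + 1)) = endL o 1 (l.take j) * swap o (l.getD j o)
    rw [h5, List.take_succ_eq_append_getElem hj, endL_append]
    rfl
  · show endL o 1 (l.take l.length) = endL o 1 (l.take 0)
    rw [List.take_length, h2]
    rfl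
  · intro g
    obtain ⟨j, hj, he⟩ := mem_walkL o l 1 g (h3 g)
    rcases hj.lt_or_eq with hj | hj
    · exact ⟨j, hj, he⟩
    · refine ⟨0, h0, ?_⟩
      rw [← he, hj, List.take_length, h2]
      rfl

end

theorem bal_three : Bal (0 : Fin 3) 6 3 :=
  bal_of_list (0 : Fin 3) [1, 2, 1, 2, 1, 2] 3 (by decide) (by decide) (by decide +kernel)
    (by decide +kernel) (by decide +kernel)

/-- A balanced code for five symbols. -/
def list5 : List (Fin 5) :=
  [1, 2, 1, 2, 1, 3, 2, 1, 2, 4, 1, 2, 1, 3, 4, 3, 1, 2, 1, 3, 4, 1, 2, 4, 1, 3, 1, 3, 1, 2,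
   4, 1, 4, 1, 4, 2, 1, 4, 1, 3, 4, 1, 4, 2, 3, 2, 4, 1, 4, 2, 3, 4, 1, 3, 4, 2, 4, 2, 4, 1,
   3, 4, 3, 4, 3, 1, 4, 3, 4, 2, 3, 4, 3, 1, 2, 1, 3, 4, 3, 1, 2, 3, 4, 2, 3, 1, 3, 1, 3, 4,
   2, 3, 2, 3, 2, 4, 3, 2, 3, 1, 2, 3, 2, 4, 1, 4, 2, 3, 2, 4, 1, 2, 3, 1, 2, 4, 2, 4, 2, 3]

/-- Code of a permutation of five symbols. -/
def code5 (g : Perm (Fin 5)) : ℕ := g 0 + 8 * g 1 + 64 * g 2 + 512 * g 3 + 4096 * g 4

/-- Exchange of the digits `0` and `i` in base `b`. -/
def stepc (b c i : ℕ) : ℕ :=
  c + c % b * b ^ i + c / b ^ i % b - (c % b + c / b ^ i % b * b ^ i)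

theorem code5_step : ∀ (g : Perm (Fin 5)) (i : Fin 5),
    code5 (g * swap 0 i) = stepc 8 (code5 g) i := by
  decide +kernel

/-- The codes along a walk. -/
def walkC (b : ℕ) : ℕ → List ℕ → List ℕ
  | c, [] => [c]
  | c, i :: l => c :: walkC b (stepc b c i) l

theorem walkC_eq (l : List (Fin 5)) (g : Perm (Fin 5)) :
    (walkL 0 g l).map code5 = walkC 8 (code5 g) (l.map Fin.val) := by
  induction l generalizing g with
  | nil => rfl
  | cons i l ih => simp only [walkL, List.map_cons, walkC, ih, code5_step]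

theorem walk5_cover : ∀ g, g ∈ walkL (0 : Fin 5) 1 list5 := by
  have h1 : ((walkL (0 : Fin 5) 1 list5).map code5).tail.Nodup := by
    rw [walkC_eq]
    decide +kernel
  rw [← List.map_tail] at h1
  have h2 := List.Nodup.of_map _ h1
  have h3 : (walkL (0 : Fin 5) 1 list5).tail.toFinset = Finset.univ := by
    apply Finset.eq_univ_of_card
    rw [List.toFinset_card_of_nodup h2, Fintype.card_perm]
    decide +kernel
  intro g
  apply List.mem_of_mem_tail
  rw [← List.mem_toFinset, h3]
  exact Finset.mem_univ _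

theorem bal_five : Bal (0 : Fin 5) 120 30 :=
  bal_of_list (0 : Fin 5) list5 30 (by decide) (by decide +kernel) (by decide +kernel)
    walk5_cover (by decide +kernel)

/-- Code of a permutation of four symbols. -/
def code4 (g : Perm (Fin 4)) : ℕ := g 0 + 4 * g 1 + 16 * g 2 + 64 * g 3

theorem code4_step : ∀ (g : Perm (Fin 4)) (i : Fin 4),
    code4 (g * swap 0 i) = stepc 4 (code4 g) i := by
  decide +kernel

theorem code4_inj : ∀ g h : Perm (Fin 4), code4 g = code4 h → g = h := by
  decide +kernel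

/-- Exhaustive search for the rest of a balanced cycle. -/
def search : ℕ → ℕ → ℕ → ℕ → ℕ → ℕ → Bool
  | 0, c, _, a, b, d =>
    (decide (0 < a) && decide (stepc 4 c 1 = 228)) || (decide (0 < b) && decide (stepc 4 c 2 = 228))
      || (decide (0 < d) && decide (stepc 4 c 3 = 228))
  | f + 1, c, v, a, b, d =>
    (decide (0 < a) && !v.testBit (stepc 4 c 1) &&
        search f (stepc 4 c 1) (v ||| 2 ^ stepc 4 c 1) (a - 1) b d) ||
      (decide (0 < b) && !v.testBit (stepc 4 c 2) &&
        search f (stepc 4 c 2) (v ||| 2 ^ stepc 4 c 2) a (b - 1) d) ||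
      (decide (0 < d) && !v.testBit (stepc 4 c 3) &&
        search f (stepc 4 c 3) (v ||| 2 ^ stepc 4 c 3) a b (d - 1))

theorem search_false : search 23 228 (2 ^ 228) 8 8 8 = false := by
  decide +kernel

theorem search_sound (π : ℕ → Perm (Fin 4)) (s : ℕ → Fin 4)
    (h1 : ∀ j < 24, s j ≠ 0 ∧ π (j + 1) = π j * swap 0 (s j)) (h2 : π 24 = 1)
    (h3 : ∀ i < 24, ∀ j < 24, π i = π j → i = j) (f : ℕ) : ∀ k v a b d, k + f = 23 →
      (∀ j, k < j → j < 24 → v.testBit (code4 (π j)) = false) →
      ((Finset.Ico k 24).filter (fun j => s j = 1)).card ≤ a →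
      ((Finset.Ico k 24).filter (fun j => s j = 2)).card ≤ b →
      ((Finset.Ico k 24).filter (fun j => s j = 3)).card ≤ d →
      search f (code4 (π k)) v a b d = true := by
  have hcnt : ∀ k < 24, ∀ i : Fin 4, ((Finset.Ico k 24).filter (fun j => s j = i)).card =
      ((Finset.Ico (k + 1) 24).filter (fun j => s j = i)).card + if s k = i then 1 else 0 := by
    intro k hk i
    rw [← Finset.insert_Ico_add_one_left_eq_Ico hk, Finset.filter_insert]
    split_ifs with h
    · rw [Finset.card_insert_of_notMem (by simp)]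
    · rfl
  have hs : ∀ i : Fin 4, i ≠ 0 → i = 1 ∨ i = 2 ∨ i = 3 := by decide
  induction f with
  | zero =>
    intro k v a b d hk _ ha hb hd
    have hk' : k = 23 := by omega
    subst hk'
    obtain ⟨h4, h5⟩ := h1 23 (by omega)
    have h6 : stepc 4 (code4 (π 23)) (s 23) = 228 := by
      rw [← code4_step, ← h5, h2]; rfl
    rw [hcnt 23 (by omega)] at ha hb hd
    unfold search
    rcases hs _ h4 with h | h | h <;> rw [h] at h6 ha hb hd
    · have : 0 < a := by simp at ha; omega
      have h7 : stepc 4 (code4 (π 23)) 1 = 228 := h6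
      simp [this, h7]
    · have : 0 < b := by simp at hb; omega
      have h7 : stepc 4 (code4 (π 23)) 2 = 228 := h6
      simp [this, h7]
    · have : 0 < d := by simp at hd; omega
      have h7 : stepc 4 (code4 (π 23)) 3 = 228 := h6
      simp [this, h7]
  | succ f ih =>
    intro k v a b d hk hv ha hb hd
    obtain ⟨h4, h5⟩ := h1 k (by omega)
    have h6 : stepc 4 (code4 (π k)) (s k) = code4 (π (k + 1)) := by
      rw [← code4_step, ← h5]
    have h7 := hv (k + 1) (by omega) (by omega)
    have h8 : ∀ j, k + 1 < j → j < 24 →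
        (v ||| 2 ^ code4 (π (k + 1))).testBit (code4 (π j)) = false := by
      intro j hj hj'
      rw [Nat.testBit_or, hv j (by omega) hj', Nat.testBit_two_pow]
      simp only [Bool.false_or, decide_eq_false_iff_not]
      intro h
      have := h3 _ (by omega) _ hj' (code4_inj _ _ h)
      omega
    rw [hcnt k (by omega)] at ha hb hd
    unfold search
    rcases hs _ h4 with h | h | h <;> rw [h] at h6 ha hb hd
    · have h9 : stepc 4 (code4 (π k)) 1 = code4 (π (k + 1)) := h6
      simp only [if_true] at ha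
      have h10 := ih (k + 1) _ (a - 1) b d (by omega) h8 (by omega) (by omega) (by omega)
      have : 0 < a := by omega
      simp [this, h9, h7, h10]
    · have h9 : stepc 4 (code4 (π k)) 2 = code4 (π (k + 1)) := h6
      simp only [if_true] at hb
      have h10 := ih (k + 1) _ a (b - 1) d (by omega) h8 (by omega) (by omega) (by omega)
      have : 0 < b := by omega
      simp [this, h9, h7, h10]
    · have h9 : stepc 4 (code4 (π k)) 3 = code4 (π (k + 1)) := h6
      simp only [if_true] at hd
      have h10 := ih (k + 1) _ a b (d - 1) (by omega) h8 (by omega) (by omega) (by omega)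
      have : 0 < d := by omega
      simp [this, h9, h7, h10]

theorem not_bal_four (π : ℕ → Perm (Fin 4)) (s : ℕ → Fin 4)
    (h1 : ∀ j < 24, s j ≠ 0 ∧ π (j + 1) = π j * swap 0 (s j)) (h2 : π 24 = π 0)
    (h3 : ∀ i < 24, ∀ j < 24, π i = π j → i = j)
    (h4 : ∀ i, i ≠ 0 → ((Finset.range 24).filter (fun j => s j = i)).card = 8) : False := by
  have h5 := search_sound (fun j => (π 0)⁻¹ * π j) s (fun j hj =>
      ⟨(h1 j hj).1, by simp only [(h1 j hj).2, mul_assoc]⟩) (by simp only [h2, inv_mul_cancel])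
    (fun i hi j hj h => h3 i hi j hj (mul_left_cancel h)) 23 0 (2 ^ 228) 8 8 8 rfl (by
      intro j hj hj'
      rw [Nat.testBit_two_pow]
      simp only [decide_eq_false_iff_not]
      intro h
      have h6 : code4 ((π 0)⁻¹ * π 0) = code4 ((π 0)⁻¹ * π j) := by
        rw [← h, inv_mul_cancel]; rfl
      have := h3 0 (by omega) j hj' (mul_left_cancel (code4_inj _ _ h6))
      omega)
    (by rw [← Finset.range_eq_Ico, h4 1 (by decide)])
    (by rw [← Finset.range_eq_Ico, h4 2 (by decide)])
    (by rw [← Finset.range_eq_Ico, h4 3 (by decide)])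
  simp only [inv_mul_cancel] at h5
  have h6 : code4 1 = 228 := rfl
  rw [h6, search_false] at h5
  exact absurd h5 (by decide)

end Pool.Agent.Lib.MP_c0b3d0_co
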