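import Pool.Agent.Lib.MP_c0b3d0_co.Big
import Pool.Agent.Lib.MP_c0b3d0_co.Small

/-!
Translation to cyclic listings indexed by residues.
-/

open Equiv Equiv.Perm

namespace Pool.Agent.Lib.MP_c0b3d0_co

theorem bal_fin (n : ℕ) [NeZero n] (hn : 3 ≤ n) (h4 : n ≠ 4) :
    Bal (0 : Fin n) n.factorial (n * (n - 2).factorial) := by
  by_cases h3 : n = 3
  · subst h3; exact bal_three
  by_cases h5 : n = 5
  · subst h5; exact bal_five
  obtain ⟨k, rfl⟩ : ∃ k, n = k + 2 := ⟨n - 2, by omega⟩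
  have h := (bal_big (m := k + 1) (by omega)).transport
    ((Equiv.optionCongr (ZMod.finEquiv (k + 1)).symm.toEquiv).trans (finSuccEquiv (k + 1)).symm)
  have h1 : (k + 1) * ((k + 1 + 1) * (k + 1 - 1).factorial) = (k + 2).factorial := by
    rw [Nat.factorial_succ, Nat.factorial_succ, Nat.add_sub_cancel]
    ring
  rw [h1] at h
  exact h

theorem val_step {N : ℕ} [NeZero N] {G : Type} (π : ℕ → G) (h : π N = π 0) (z : ZMod N) :
    π (z + 1).val = π (z.val + 1) := by
  have h1 : z + 1 = ((z.val + 1 : ℕ) : ZMod N) := by simp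
  rw [h1, ZMod.val_natCast]
  have h2 := ZMod.val_lt z
  by_cases h3 : z.val + 1 < N
  · rw [Nat.mod_eq_of_lt h3]
  · have h4 : z.val + 1 = N := by omega
    rw [h4, Nat.mod_self, h]

theorem ncard_val {N : ℕ} [NeZero N] (P : ℕ → Prop) [DecidablePred P] :
    {z : ZMod N | P z.val}.ncard = ((Finset.range N).filter P).card := by
  rw [← Set.ncard_image_of_injective _ (ZMod.val_injective N), ← Set.ncard_coe_finset]
  congr 1
  ext j
  simp only [Set.mem_image, Set.mem_ofPred_eq, Finset.coe_filter, Finset.mem_range]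
  constructor
  · rintro ⟨z, hz, rfl⟩
    exact ⟨ZMod.val_lt z, hz⟩
  · rintro ⟨h1, h2⟩
    exact ⟨(j : ZMod N), by rw [ZMod.val_natCast, Nat.mod_eq_of_lt h1]; exact h2,
      by rw [ZMod.val_natCast, Nat.mod_eq_of_lt h1]⟩

theorem main (n : ℕ) [NeZero n] (hn : 3 ≤ n) :
    (∃ (π : ZMod n.factorial → Perm (Fin n)) (s : ZMod n.factorial → Fin n),
      (Function.Bijective π ∧ ∀ j, s j ≠ 0 ∧ π (j + 1) = π j * swap 0 (s j)) ∧
        ∀ i, i ≠ 0 → {j | s j = i}.ncard = n * (n - 2).factorial) ↔ n ≠ 4 := by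
  haveI : NeZero n.factorial := ⟨Nat.factorial_ne_zero n⟩
  constructor
  · rintro ⟨π, s, ⟨h1, h2⟩, h3⟩ rfl
    refine not_bal_four (fun j => π (j : ZMod (Nat.factorial 4)))
      (fun j => s (j : ZMod (Nat.factorial 4))) ?_ ?_ ?_ ?_
    · intro j _
      refine ⟨(h2 _).1, ?_⟩
      show π ((j + 1 : ℕ) : ZMod (Nat.factorial 4)) = _
      rw [Nat.cast_succ, (h2 _).2]
    · rfl
    · intro i hi j hj hij
      have h4 := congrArg ZMod.val (h1.1 hij)
      rw [ZMod.val_natCast, ZMod.val_natCast] at h4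
      have h5 : Nat.factorial 4 = 24 := rfl
      rw [h5] at h4
      omega
    · intro i hi
      have h4 := h3 i hi
      have h5 := ncard_val (N := Nat.factorial 4) (fun j => s (j : ZMod (Nat.factorial 4)) = i)
      simp only [ZMod.natCast_zmod_val] at h5
      rw [h5] at h4
      exact h4
  · intro h4
    obtain ⟨π, s, h1, h2, h3, h5⟩ := bal_fin n hn h4
    refine ⟨fun z => π z.val, fun z => s z.val, ⟨?_, ?_⟩, ?_⟩
    · rw [Fintype.bijective_iff_surjective_and_card]
      refine ⟨fun g => ?_, by rw [ZMod.card, Fintype.card_perm, Fintype.card_fin]⟩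
      obtain ⟨j, hj, hg⟩ := h3 g
      exact ⟨(j : ZMod n.factorial), by
        show π (j : ZMod n.factorial).val = g
        rw [ZMod.val_natCast, Nat.mod_eq_of_lt hj, hg]⟩
    · intro z
      obtain ⟨h6, h7⟩ := h1 z.val (ZMod.val_lt z)
      exact ⟨h6, (val_step π h2 z).trans h7⟩
    · intro i hi
      rw [← h5 i hi]
      exact ncard_val (fun j => s j = i)

end Pool.Agent.Lib.MP_c0b3d0_co
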