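import Mathlib

/-!
Hamilton laceability of star graphs: in a sub-star with at least three free positions, any two
permutations of different sign are joined by a Hamilton path.
-/

open Equiv Equiv.Perm

namespace Pool.Agent.Lib.MP_c0b3d0_co

/-- `Walk R x z L`: `L` is the list of vertices of a walk from `x` to `z` with steps in `R`. -/
inductive Walk {G : Type} (R : G → G → Prop) : G → G → List G → Prop
  | single (x : G) : Walk R x x [x]
  | cons {x y z : G} {L : List G} : R x y → Walk R y z L → Walk R x z (x :: L)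

section walk
variable {G G' : Type} {R : G → G → Prop}

theorem Walk.append {x y x' y' : G} {L L' : List G} (h : Walk R x y L) (hyx : R y x')
    (h' : Walk R x' y' L') : Walk R x y' (L ++ L') := by
  induction h with
  | single x => exact Walk.cons hyx h'
  | cons hr _ ih => exact Walk.cons hr (ih hyx)

theorem Walk.map {R' : G' → G' → Prop} (f : G → G') (hf : ∀ a b, R a b → R' (f a) (f b))
    {x y : G} {L : List G} (h : Walk R x y L) : Walk R' (f x) (f y) (L.map f) := by
  induction h with
  | single x => exact Walk.single _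
  | cons hr _ ih => exact Walk.cons (hf _ _ hr) ih

theorem Walk.mono {R' : G → G → Prop} (hf : ∀ a b, R a b → R' a b)
    {x y : G} {L : List G} (h : Walk R x y L) : Walk R' x y L := by
  induction h with
  | single x => exact Walk.single _
  | cons hr _ ih => exact Walk.cons (hf _ _ hr) ih

theorem Walk.exists_fun {x y : G} {L : List G} (h : Walk R x y L) :
    ∃ v : ℕ → G, v 0 = x ∧ v (L.length - 1) = y ∧ 0 < L.length ∧
      (∀ t, t + 1 < L.length → R (v t) (v (t + 1))) ∧ ∀ g ∈ L, ∃ t < L.length, v t = g := by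
  induction h with
  | single x => exact ⟨fun _ => x, rfl, rfl, by simp, by simp, by simp⟩
  | @cons x y z L hr _ ih =>
    obtain ⟨v, h0, h1, h2, h3, h4⟩ := ih
    refine ⟨fun t => Nat.casesOn t x v, rfl, ?_, by simp, ?_, ?_⟩
    · have : (x :: L).length - 1 = (L.length - 1) + 1 := by simp; omega
      rw [this]; exact h1
    · intro t ht
      cases t with
      | zero => show R x (v 0); rw [h0]; exact hr
      | succ t => exact h3 t (by simpa using ht)
    · intro g hg
      rcases List.mem_cons.1 hg with rfl | hg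
      · exact ⟨0, by simp, rfl⟩
      · obtain ⟨t, ht, rfl⟩ := h4 g hg
        exact ⟨t + 1, by simpa using ht, rfl⟩

end walk

section star
variable {X : Type} [DecidableEq X]

omit [DecidableEq X] in
theorem app_inv (x : Perm X) (s : X) : x (x⁻¹ s) = s := by simp

/-- One star step with a label in `T`. -/
def Adj (o : X) (T : Finset X) (x y : Perm X) : Prop := ∃ p ∈ T, y = x * swap o p

/-- `y` agrees with `x` outside the positions in `T` and `o`. -/
def Agree (o : X) (T : Finset X) (x y : Perm X) : Prop := ∀ z, z ∉ T → z ≠ o → y z = x z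

/-- A Hamilton path of the sub-star through `x` with free positions `T`. -/
def Ham (o : X) (T : Finset X) (x y : Perm X) (L : List (Perm X)) : Prop :=
  Walk (Adj o T) x y L ∧ L.Nodup ∧ L.length = (T.card + 1).factorial ∧
    ∀ g, g ∈ L ↔ Agree o T x g

/-- The vertices of the walk with the given labels. -/
def walkL (o : X) : Perm X → List X → List (Perm X)
  | g, [] => [g]
  | g, i :: l => g :: walkL o (g * swap o i) l

/-- The end of the walk with the given labels. -/
def endL (o : X) : Perm X → List X → Perm X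
  | g, [] => g
  | g, i :: l => endL o (g * swap o i) l

theorem walk_walkL (o : X) (T : Finset X) (l : List X) (g : Perm X) (h : ∀ i ∈ l, i ∈ T) :
    Walk (Adj o T) g (endL o g l) (walkL o g l) := by
  induction l generalizing g with
  | nil => exact Walk.single _
  | cons i l ih =>
    exact Walk.cons ⟨i, h i (by simp), rfl⟩ (ih _ fun j hj => h j (by simp [hj]))

/-- Hamilton paths in the star graph on four symbols. -/
def table4 : List (List (Fin 4)) :=
[[1, 2, 1, 2, 1, 3, 1, 2, 1, 2, 3, 2, 1, 2, 1, 2, 3, 2, 1, 2, 1, 2, 3],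
 [1, 2, 3, 1, 2, 3, 2, 1, 2, 3, 1, 2, 3, 1, 3, 2, 3, 1, 2, 1, 2, 1, 3],
 [1, 2, 1, 2, 1, 3, 2, 3, 2, 1, 2, 1, 2, 3, 2, 1, 3, 2, 1, 2, 3, 2, 1],
 [2, 1, 2, 1, 3, 2, 1, 2, 1, 2, 3, 1, 2, 1, 2, 1, 3, 2, 1, 2, 1, 2, 3],
 [1, 2, 1, 2, 1, 3, 1, 3, 1, 2, 1, 2, 1, 3, 1, 2, 3, 1, 2, 1, 3, 1, 2],
 [1, 2, 1, 2, 1, 3, 2, 1, 2, 1, 3, 1, 2, 1, 2, 1, 3, 1, 2, 1, 2, 1, 3],
 [1, 2, 1, 2, 1, 3, 1, 2, 1, 2, 1, 3, 2, 1, 2, 1, 2, 3, 2, 1, 2, 1, 2],
 [1, 2, 1, 2, 3, 1, 2, 1, 2, 1, 3, 2, 1, 2, 1, 2, 3, 1, 2, 1, 2, 1, 3],
 [1, 2, 1, 2, 1, 3, 2, 1, 2, 1, 2, 3, 1, 2, 1, 2, 1, 3, 1, 2, 1, 2, 1],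
 [1, 2, 1, 3, 1, 2, 1, 2, 1, 3, 2, 3, 1, 3, 2, 1, 3, 2, 1, 2, 3, 2, 1],
 [1, 2, 1, 2, 1, 3, 2, 1, 2, 1, 2, 3, 1, 2, 1, 2, 1, 3, 2, 1, 2, 1, 2],
 [1, 2, 1, 2, 1, 3, 1, 2, 1, 2, 1, 3, 2, 1, 2, 1, 2, 3, 1, 2, 1, 2, 1]]

theorem table4_ok : ∀ l ∈ table4, (∀ i ∈ l, i ≠ 0) ∧ (walkL (0 : Fin 4) 1 l).Nodup ∧
    (walkL (0 : Fin 4) 1 l).length = 24 := by
  decide +kernel

theorem table4_end : ∀ g : Perm (Fin 4), sign g = -1 → ∃ l ∈ table4, endL (0 : Fin 4) 1 l = g := by
  decide +kernel

theorem lace_four (g : Perm (Fin 4)) (hg : sign g = -1) :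
    ∃ L, Walk (Adj (0 : Fin 4) {1, 2, 3}) 1 g L ∧ L.Nodup ∧ L.length = 24 ∧ ∀ h, h ∈ L := by
  obtain ⟨l, hl, rfl⟩ := table4_end g hg
  obtain ⟨h1, h2, h3⟩ := table4_ok l hl
  refine ⟨walkL 0 1 l, walk_walkL _ _ _ _ ?_, h2, h3, ?_⟩
  · intro i hi
    have := h1 i hi
    revert this
    generalize i = j
    revert j
    decide
  · intro h
    have h4 : (walkL (0 : Fin 4) 1 l).toFinset = Finset.univ := by
      apply Finset.eq_univ_of_card
      rw [List.toFinset_card_of_nodup h2, h3, Fintype.card_perm]
      rfl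
    rw [← List.mem_toFinset, h4]
    exact Finset.mem_univ _

variable [Fintype X]

theorem lace_three (o a b c : X) (hab : a ≠ b) (hac : a ≠ c) (hbc : b ≠ c) (hoa : o ≠ a)
    (hob : o ≠ b) (hoc : o ≠ c) (x y : Perm X) (hxy : Agree o {a, b, c} x y)
    (hs : sign x ≠ sign y) : ∃ L, Ham o {a, b, c} x y L := by
  let e : Fin 4 ↪ X := ⟨![o, a, b, c], by
    intro i j hij
    fin_cases i <;> fin_cases j <;> simp_all [eq_comm]⟩
  have he : ∀ z, z ∉ Set.range e ↔ (z ∉ ({a, b, c} : Finset X) ∧ z ≠ o) := by
    intro z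
    constructor
    · intro h
      refine ⟨?_, ?_⟩
      · intro hz
        simp only [Finset.mem_insert, Finset.mem_singleton] at hz
        rcases hz with rfl | rfl | rfl
        · exact h ⟨1, rfl⟩
        · exact h ⟨2, rfl⟩
        · exact h ⟨3, rfl⟩
      · rintro rfl
        exact h ⟨0, rfl⟩
    · rintro ⟨h1, h2⟩ ⟨i, rfl⟩
      fin_cases i
      · exact h2 rfl
      · exact h1 (by simp [e])
      · exact h1 (by simp [e])
      · exact h1 (by simp [e])
  let φ : Perm (Fin 4) →* Perm X := viaEmbeddingHom e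
  have hφ1 : ∀ g i, φ g (e i) = e (g i) := fun g i => viaEmbedding_apply g e i
  have hφ2 : ∀ g z, z ∉ Set.range e → φ g z = z := fun g z hz =>
    viaEmbedding_apply_of_notMem g e z hz
  have hφswap : ∀ i j, φ (swap i j) = swap (e i) (e j) := by
    intro i j
    ext z
    by_cases hz : z ∈ Set.range e
    · obtain ⟨k, rfl⟩ := hz
      rw [hφ1, e.injective.map_swap]
    · rw [hφ2 _ _ hz, swap_apply_of_ne_of_ne]
      · rintro rfl; exact hz ⟨i, rfl⟩
      · rintro rfl; exact hz ⟨j, rfl⟩
  have hφsign : ∀ g, sign (φ g) = sign g := by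
    intro g
    induction g using Equiv.Perm.swap_induction_on with
    | one => simp
    | swap_mul f i j hij ih =>
      rw [map_mul, hφswap, Perm.sign_mul, Perm.sign_mul, ih, sign_swap hij, sign_swap (e.injective.ne hij)]
  have hφsurj : ∀ h : Perm X, (∀ z, z ∉ Set.range e → h z = z) → ∃ g, φ g = h := by
    intro h hh
    have h1 : ∀ i, ∃ j, e j = h (e i) := by
      intro i
      by_contra hne
      have h2 : h (e i) ∉ Set.range e := by
        rintro ⟨j, hj⟩; exact hne ⟨j, hj⟩
      have h3 := h.injective (hh _ h2)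
      exact h2 ⟨i, h3.symm⟩
    choose g hg using h1
    have hginj : Function.Injective g := by
      intro i j hij
      apply e.injective
      apply h.injective
      rw [← hg, ← hg, hij]
    refine ⟨Equiv.ofBijective g (Finite.injective_iff_bijective.1 hginj), ?_⟩
    ext z
    by_cases hz : z ∈ Set.range e
    · obtain ⟨k, rfl⟩ := hz
      rw [hφ1]
      exact hg k
    · rw [hφ2 _ _ hz, hh z hz]
  have hag : ∀ g : Perm X, Agree o {a, b, c} x g → ∃ g', g = x * φ g' := by
    intro g hg
    obtain ⟨g', hg'⟩ := hφsurj (x⁻¹ * g) (by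
      intro z hz
      obtain ⟨h1, h2⟩ := (he z).1 hz
      simp [hg z h1 h2])
    exact ⟨g', by rw [hg']; simp⟩
  obtain ⟨g, rfl⟩ := hag y hxy
  have hg : sign g = -1 := by
    rw [Perm.sign_mul, hφsign] at hs
    rcases Int.units_eq_one_or (sign g) with h | h
    · rw [h] at hs; simp at hs
    · exact h
  obtain ⟨L, h1, h2, h3, h4⟩ := lace_four g hg
  refine ⟨L.map fun g => x * φ g, ?_, ?_, ?_, ?_⟩
  · have := h1.map (R' := Adj o {a, b, c}) (fun g => x * φ g) (by
      rintro u v ⟨p, hp, rfl⟩
      refine ⟨e p, ?_, ?_⟩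
      · simp only [Finset.mem_insert, Finset.mem_singleton] at hp
        rcases hp with rfl | rfl | rfl <;> simp [e]
      · rw [map_mul, hφswap, mul_assoc]; rfl)
    simpa using this
  · refine h2.map ?_
    intro u v huv
    exact viaEmbeddingHom_injective e (mul_left_cancel huv)
  · rw [List.length_map, h3, Finset.card_eq_three.2 ⟨a, b, c, hab, hac, hbc, rfl⟩]
    rfl
  · intro g
    constructor
    · intro hg
      obtain ⟨g', -, rfl⟩ := List.mem_map.1 hg
      intro z h1 h2
      rw [Perm.mul_apply, hφ2 _ _ ((he z).2 ⟨h1, h2⟩)]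
    · intro hg
      obtain ⟨g', rfl⟩ := hag g hg
      exact List.mem_map.2 ⟨g', h4 g', rfl⟩

/-- The inductive step: run through the blocks in the order given by a list of symbols. -/
theorem lace_step (o p : X) (T : Finset X) (hoT : o ∉ T) (hpT : p ∉ T) (hpo : p ≠ o)
    (hT : 2 ≤ T.card)
    (ih : ∀ x y : Perm X, Agree o T x y → sign x ≠ sign y → ∃ L, Ham o T x y L)
    (y : Perm X) (S : List X) : ∀ (x : Perm X), Agree o (insert p T) y x → sign x ≠ sign y →
      (x p :: S).Nodup → (x p :: S).getLast? = some (y p) →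
      (∀ s ∈ S, ∃ t, (t ∈ insert p T ∨ t = o) ∧ y t = s) →
      ∃ L, Walk (Adj o (insert p T)) x y L ∧ L.Nodup ∧
        L.length = (S.length + 1) * (T.card + 1).factorial ∧
        ∀ g, g ∈ L ↔ (Agree o (insert p T) y g ∧ g p ∈ x p :: S) := by
  have hmono : ∀ a b : Perm X, Adj o T a b → Adj o (insert p T) a b := by
    rintro a b ⟨q, hq, rfl⟩
    exact ⟨q, Finset.mem_insert_of_mem hq, rfl⟩
  have hag : ∀ x g : Perm X, Agree o (insert p T) y x →
      (Agree o T x g ↔ (Agree o (insert p T) y g ∧ g p = x p)) := by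
    intro x g hx
    constructor
    · intro h
      refine ⟨fun z h1 h2 => ?_, h p hpT hpo⟩
      rw [h z (fun h3 => h1 (Finset.mem_insert_of_mem h3)) h2, hx z h1 h2]
    · rintro ⟨h1, h2⟩ z h3 h4
      by_cases hz : z = p
      · rw [hz, h2]
      · have h5 : z ∉ insert p T := by simp [hz, h3]
        rw [h1 z h5 h4, hx z h5 h4]
  induction S with
  | nil =>
    intro x hx hs _ hlast _
    have hxy : x p = y p := by simpa using hlast
    obtain ⟨L, h1, h2, h3, h4⟩ := ih x y ((hag x y hx).2 ⟨fun _ _ _ => rfl, hxy.symm⟩) hs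
    refine ⟨L, h1.mono hmono, h2, by simpa using h3, fun g => ?_⟩
    rw [h4, hag x g hx]
    simp
  | cons s S ihS =>
    intro x hx hs hnd hlast hS
    obtain ⟨t0, ht0, hts⟩ := hS s (by simp)
    have hne : x p ≠ s := by
      intro h
      simp [h] at hnd
    -- the position of `s` in `x`
    have ht : ∃ t, (t ∈ T ∨ t = o) ∧ x t = s := by
      refine ⟨x⁻¹ s, ?_, by simp⟩
      by_contra hcon
      push Not at hcon
      have h1 : x⁻¹ s ≠ p := by
        intro h
        apply hne
        rw [← h]; simp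
      have h0 : x⁻¹ s ∉ insert p T := by
        rw [Finset.mem_insert, not_or]; exact ⟨h1, hcon.1⟩
      have h2 := hx (x⁻¹ s) h0 hcon.2
      rw [app_inv] at h2
      have h3 : t0 = x⁻¹ s := y.injective (hts.trans h2)
      rw [h3] at ht0
      rcases ht0 with h4 | h4
      · exact h0 h4
      · exact hcon.2 h4
    obtain ⟨t, htT, hxt⟩ := ht
    obtain ⟨a, ha, b, hb, hab⟩ := Finset.one_lt_card.1 (lt_of_lt_of_le one_lt_two hT)
    have hz : ∃ z : Perm X, Agree o T x z ∧ z o = s ∧ sign x ≠ sign z := by
      have h1 : Agree o T x (x * swap o t) := by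
        intro z h1 h2
        rw [Perm.mul_apply, swap_apply_of_ne_of_ne h2]
        rintro rfl
        rcases htT with h | h
        · exact h1 h
        · exact h2 h
      by_cases h2 : sign x = sign (x * swap o t)
      · refine ⟨x * swap o t * swap a b, ?_, ?_, ?_⟩
        · intro z h3 h4
          rw [Perm.mul_apply, swap_apply_of_ne_of_ne, h1 z h3 h4]
          · rintro rfl; exact h3 ha
          · rintro rfl; exact h3 hb
        · rw [Perm.mul_apply, swap_apply_of_ne_of_ne, Perm.mul_apply, swap_apply_left, hxt]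
          · rintro rfl; exact hoT ha
          · rintro rfl; exact hoT hb
        · rw [Perm.sign_mul, ← h2, sign_swap hab]
          rcases Int.units_eq_one_or (sign x) with h | h <;> simp [h]
      · exact ⟨x * swap o t, h1, by rw [Perm.mul_apply, swap_apply_left, hxt], h2⟩
    obtain ⟨z, hz1, hz2, hz3⟩ := hz
    obtain ⟨L1, a1, a2, a3, a4⟩ := ih x z hz1 hz3
    have hx'p : (z * swap o p) p = s := by rw [Perm.mul_apply, swap_apply_right, hz2]
    have hzy := ((hag x z hx).1 hz1).1
    obtain ⟨L2, b1, b2, b3, b4⟩ := ihS (z * swap o p) (by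
        intro u h1 h2
        rw [Perm.mul_apply, swap_apply_of_ne_of_ne h2, hzy u h1 h2]
        rintro rfl
        exact h1 (Finset.mem_insert_self _ _))
      (by
        rw [Perm.sign_mul, sign_swap hpo.symm]
        rcases Int.units_eq_one_or (sign x) with h | h <;>
          rcases Int.units_eq_one_or (sign y) with h' | h' <;>
          rcases Int.units_eq_one_or (sign z) with h'' | h'' <;> simp_all)
      (by rw [hx'p]; exact (List.nodup_cons.1 hnd).2)
      (by rw [hx'p]; simpa using hlast)
      (fun s' hs' => hS s' (List.mem_cons_of_mem _ hs'))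
    rw [hx'p] at b4
    refine ⟨L1 ++ L2, (a1.mono hmono).append ⟨p, Finset.mem_insert_self _ _, rfl⟩ b1, ?_, ?_, ?_⟩
    · rw [List.nodup_append]
      refine ⟨a2, b2, ?_⟩
      intro u hu v hv huv
      subst huv
      have h1 := ((hag x u hx).1 ((a4 u).1 hu)).2
      have h2 := ((b4 u).1 hv).2
      rw [h1] at h2
      exact (List.nodup_cons.1 hnd).1 h2
    · rw [List.length_append, a3, b3, List.length_cons]
      ring
    · intro g
      rw [List.mem_append, a4, b4, hag x g hx, List.mem_cons (a := g p) (b := x p)]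
      tauto

theorem lace (o : X) (n : ℕ) : ∀ (T : Finset X), T.card = n + 3 → o ∉ T →
    ∀ x y : Perm X, Agree o T x y → sign x ≠ sign y → ∃ L, Ham o T x y L := by
  induction n with
  | zero =>
    intro T hT ho x y hxy hs
    obtain ⟨a, b, c, hab, hac, hbc, rfl⟩ := Finset.card_eq_three.1 hT
    simp only [Finset.mem_insert, Finset.mem_singleton, not_or] at ho
    exact lace_three o a b c hab hac hbc ho.1 ho.2.1 ho.2.2 x y hxy hs
  | succ n ih =>
    intro T hT ho x y hxy hs
    have hp : ∃ p ∈ T, x p ≠ y p := by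
      by_contra hcon
      push Not at hcon
      apply hs
      have h1 : ∀ z, z ≠ o → y z = x z := by
        intro z hz
        by_cases hzT : z ∈ T
        · exact (hcon z hzT).symm
        · exact hxy z hzT hz
      have h2 : y o = x o := by
        by_contra h3
        have h4 : x⁻¹ (y o) ≠ o := by
          intro h
          apply h3
          rw [← h]
          conv_lhs => rw [h]
          simp
        have h5 := h1 _ h4
        rw [app_inv] at h5
        exact h4 (y.injective h5)
      have : x = y := by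
        ext z
        by_cases hz : z = o
        · rw [hz, h2]
        · rw [h1 z hz]
      rw [this]
    obtain ⟨p, hpT, hp⟩ := hp
    have hT' : (T.erase p).card = n + 3 := by rw [Finset.card_erase_of_mem hpT, hT]; rfl
    have hins : insert p (T.erase p) = T := Finset.insert_erase hpT
    have hpo : p ≠ o := by rintro rfl; exact ho hpT
    let Sig : Finset X := (insert o T).image y
    have hxp : x p ∈ Sig := by
      refine Finset.mem_image.2 ⟨y⁻¹ (x p), ?_, by simp⟩
      by_contra hcon
      simp only [Finset.mem_insert, not_or] at hcon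
      have h1 := hxy _ hcon.2 hcon.1
      rw [app_inv] at h1
      have h2 := x.injective h1
      exact hcon.2 (by rw [← h2]; exact hpT)
    have hyp : y p ∈ Sig := Finset.mem_image.2 ⟨p, Finset.mem_insert_of_mem hpT, rfl⟩
    let S : List X := ((Sig.erase (x p)).erase (y p)).toList ++ [y p]
    have hSmem : ∀ s, s ∈ x p :: S ↔ s ∈ Sig := by
      intro s
      simp only [S, List.mem_cons, List.mem_append, Finset.mem_toList, Finset.mem_erase,
        List.not_mem_nil, or_false]
      constructor
      · rintro (rfl | ⟨-, -, h⟩ | rfl)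
        · exact hxp
        · exact h
        · exact hyp
      · intro h
        by_cases h1 : s = x p
        · exact Or.inl h1
        · by_cases h2 : s = y p
          · exact Or.inr (Or.inr h2)
          · exact Or.inr (Or.inl ⟨h2, h1, h⟩)
    have hSnd : (x p :: S).Nodup := by
      simp only [S, List.nodup_cons, List.mem_append, Finset.mem_toList, Finset.mem_erase,
        List.mem_singleton, List.nodup_append, Finset.nodup_toList, List.not_mem_nil]
      refine ⟨by simp [hp], trivial, by simp, ?_⟩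
      intro a ha b hb
      rw [hb]
      exact ha.1
    have hSlen : S.length + 1 = T.card + 1 := by
      have h1 : (x p :: S).toFinset = Sig := by
        ext s; rw [List.mem_toFinset, hSmem]
      have h2 := List.toFinset_card_of_nodup hSnd
      rw [h1, Finset.card_image_of_injective _ y.injective, Finset.card_insert_of_notMem ho] at h2
      simpa using h2.symm
    have hyx : Agree o T y x := fun z h1 h2 => (hxy z h1 h2).symm
    obtain ⟨L, h1, h2, h3, h4⟩ := lace_step o p (T.erase p) (fun h => ho (Finset.mem_of_mem_erase h))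
      (Finset.notMem_erase _ _) hpo (by omega)
      (ih (T.erase p) hT' (fun h => ho (Finset.mem_of_mem_erase h))) y S x
      (by rw [hins]; exact hyx) hs hSnd (by simp [S, List.getLast?_cons]) (by
        intro s hs
        obtain ⟨t, ht, rfl⟩ := Finset.mem_image.1 ((hSmem s).1 (List.mem_cons_of_mem _ hs))
        rw [hins]
        exact ⟨t, by simpa [or_comm] using ht, rfl⟩)
    rw [hins] at h1 h4
    refine ⟨L, h1, h2, ?_, fun g => ?_⟩
    · rw [h3, hSlen, hT', hT, Nat.factorial_succ (n + 1 + 3)]
    · rw [h4, hSmem]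
      constructor
      · rintro ⟨h5, -⟩ z h6 h7
        rw [h5 z h6 h7, hxy z h6 h7]
      · intro h5
        have h6 : Agree o T y g := fun z h6 h7 => by rw [h5 z h6 h7, hxy z h6 h7]
        refine ⟨h6, Finset.mem_image.2 ⟨y⁻¹ (g p), ?_, by simp⟩⟩
        by_contra hcon
        simp only [Finset.mem_insert, not_or] at hcon
        have h7 := h6 _ hcon.2 hcon.1
        rw [app_inv] at h7
        have h8 := g.injective h7
        exact hcon.2 (by rw [h8]; exact hpT)

end star

end Pool.Agent.Lib.MP_c0b3d0_co
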