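import Pool.Agent.Lib.MP_c0b3d0_co.Lace

/-!
A free action of a cyclic group on the star graph that rotates the labels, and the lifting of a
transversal path to a balanced Hamilton cycle.
-/

open Equiv Equiv.Perm

namespace Pool.Agent.Lib.MP_c0b3d0_co

/-- A closed star walk of length `N` through all permutations that uses each label `M` times. -/
def Bal {X : Type} [DecidableEq X] (o : X) (N M : ℕ) : Prop :=
  ∃ (π : ℕ → Perm X) (s : ℕ → X), (∀ j < N, s j ≠ o ∧ π (j + 1) = π j * swap o (s j)) ∧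
    π N = π 0 ∧ (∀ g, ∃ j < N, π j = g) ∧
      ∀ i, i ≠ o → ((Finset.range N).filter (fun j => s j = i)).card = M

theorem Bal.transport {X Y : Type} [DecidableEq X] [DecidableEq Y] (e : X ≃ Y) {o : X}
    {N M : ℕ} (h : Bal o N M) : Bal (e o) N M := by
  obtain ⟨π, s, h1, h2, h3, h4⟩ := h
  refine ⟨fun j => e.permCongr (π j), fun j => e (s j), ?_, by simp only [h2], ?_, ?_⟩
  · intro j hj
    obtain ⟨h5, h6⟩ := h1 j hj
    refine ⟨e.injective.ne h5, ?_⟩
    simp only [h6]
    ext y
    obtain ⟨x, rfl⟩ := e.surjective y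
    simp only [permCongr_apply, symm_apply_apply, Perm.mul_apply]
    rw [← e.injective.map_swap, symm_apply_apply]
  · intro g
    obtain ⟨j, hj, hg⟩ := h3 (e.permCongr.symm g)
    exact ⟨j, hj, by simp only [hg, apply_symm_apply]⟩
  · intro i hi
    obtain ⟨x, rfl⟩ := e.surjective i
    rw [← h4 x (fun h => hi (by rw [h]))]
    simp only [e.injective.eq_iff]

variable {m : ℕ}

/-- The star transposition with label `p`. -/
abbrev st (p : ZMod m) : Perm (Option (ZMod m)) := swap none (some p)

/-- One star step. -/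
def Stp (x y : Perm (Option (ZMod m))) : Prop := ∃ p : ZMod m, y = x * st p

/-- An action of `ZMod m` that rotates the positions and fixes the symbols `0` and `1`. -/
structure Act (m : ℕ) [NeZero m] where
  F : ZMod m → Perm (Option (ZMod m)) → Perm (Option (ZMod m))
  zero : ∀ x, F 0 x = x
  add : ∀ i j x, F (i + j) x = F i (F j x)
  step : ∀ j x p, F j (x * st p) = F j x * st (p - j)
  sgn : ∀ j x, sign (F j x) = sign x
  val_some : ∀ j x p c, (c = 0 ∨ c = 1) → x (some p) = some c → F j x (some (p - j)) = some c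
  val_none : ∀ j x c, (c = 0 ∨ c = 1) → x none = some c → F j x none = some c

/-- Rotation of the positions. -/
def rot (j : ZMod m) : Perm (Option (ZMod m)) := Equiv.optionCongr (Equiv.addRight j)

theorem rot_none (j : ZMod m) : rot j none = none := rfl

theorem rot_some (j p : ZMod m) : rot j (some p) = some (p + j) := rfl

theorem rot_zero : rot (0 : ZMod m) = 1 := by
  ext1 x
  cases x <;> simp [rot_none, rot_some]

theorem rot_add (i j : ZMod m) : rot (i + j) = rot j * rot i := by
  ext1 x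
  cases x <;> simp [rot_none, rot_some, add_assoc]

theorem rot_nat (n : ℕ) : rot (n : ZMod m) = rot 1 ^ n := by
  induction n with
  | zero => simp [rot_zero]
  | succ n ih => rw [Nat.cast_succ, rot_add, ih, pow_succ']

theorem st_mul_rot (p j : ZMod m) : st p * rot j = rot j * st (p - j) := by
  ext1 x
  rw [Perm.mul_apply, Perm.mul_apply, (rot j).injective.map_swap, rot_none, rot_some,
    sub_add_cancel]

theorem exists_act [NeZero m] (h20 : (2 : ZMod m) ≠ 0) (h21 : (2 : ZMod m) ≠ 1) :
    Nonempty (Act m) := by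
  obtain ⟨τ, h1, h2, h3⟩ : ∃ τ : Perm (Option (ZMod m)), τ ^ m = 1 ∧
      sign τ = sign (rot (1 : ZMod m)) ∧ ∀ c, (c = 0 ∨ c = 1) → τ (some c) = some c := by
    rcases Int.units_eq_one_or (sign (rot (1 : ZMod m))) with h | h
    · exact ⟨1, one_pow _, by rw [h, Perm.sign_one], fun _ _ => rfl⟩
    · refine ⟨st 2, ?_, by rw [h, sign_swap (by simp)], ?_⟩
      · have h4 : rot (1 : ZMod m) ^ m = 1 := by rw [← rot_nat, ZMod.natCast_self, rot_zero]
        have h5 : (-1 : ℤˣ) ^ m = 1 := by rw [← h, ← map_pow, h4, Perm.sign_one]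
        have h6 : Even m := by
          by_contra h7
          rw [Nat.not_even_iff_odd] at h7
          rw [h7.neg_one_pow] at h5
          exact absurd h5 (by decide)
        obtain ⟨k, hk⟩ := h6
        rw [hk, ← two_mul, pow_mul, sq, swap_mul_self, one_pow]
      · intro c hc
        apply swap_apply_of_ne_of_ne (by simp)
        rcases hc with rfl | rfl
        · simpa using h20.symm
        · simpa using h21.symm
  have h4 : ∀ (n : ℕ) c, (c = 0 ∨ c = 1) → (τ ^ n) (some c) = some c := fun n c hc =>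
    Equiv.Perm.pow_apply_eq_self_of_apply_eq_self (h3 c hc) n
  refine ⟨⟨fun j x => τ ^ j.val * x * rot j, ?_, ?_, ?_, ?_, ?_, ?_⟩⟩
  · intro x
    simp [rot_zero]
  · intro i j x
    rw [ZMod.val_add, ← pow_eq_pow_mod _ h1, pow_add, rot_add]
    simp only [mul_assoc]
  · intro j x p
    simp only [mul_assoc, st_mul_rot]
  · intro j x
    have h5 : sign (rot j) = sign (τ ^ j.val) := by
      conv_lhs => rw [← ZMod.natCast_zmod_val j, rot_nat]
      rw [map_pow, map_pow, h2]
    rw [Perm.sign_mul, Perm.sign_mul, h5, mul_right_comm, Int.units_mul_self, one_mul]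
  · intro j x p c hc hx
    rw [Perm.mul_apply, Perm.mul_apply, rot_some, sub_add_cancel, hx, h4 _ c hc]
  · intro j x c hc hx
    rw [Perm.mul_apply, Perm.mul_apply, rot_none, hx, h4 _ c hc]

variable [NeZero m] (A : Act m)

theorem Act.stp {x y : Perm (Option (ZMod m))} (j : ZMod m) (h : Stp x y) :
    Stp (A.F j x) (A.F j y) := by
  obtain ⟨p, rfl⟩ := h
  exact ⟨p - j, A.step j x p⟩

/-- A walk from `x` to `F c z` with `l` vertices that meets the orbits of the elements of `S`. -/
def Act.Seg (x z : Perm (Option (ZMod m))) (c : ZMod m) (l : ℕ)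
    (S : Set (Perm (Option (ZMod m)))) : Prop :=
  ∃ L, Walk Stp x (A.F c z) L ∧ L.length = l ∧ ∀ g ∈ S, ∃ j, A.F j g ∈ L

theorem Act.Seg.append {x z x' z' : Perm (Option (ZMod m))} {c c' : ZMod m} {l l' : ℕ}
    {S S' : Set (Perm (Option (ZMod m)))} (h : A.Seg x z c l S) (hs : Stp z x')
    (h' : A.Seg x' z' c' l' S') : A.Seg x z' (c + c') (l + l') (S ∪ S') := by
  obtain ⟨L, h1, h2, h3⟩ := h
  obtain ⟨L', h1', h2', h3'⟩ := h'
  refine ⟨L ++ L'.map (A.F c), ?_, by simp [h2, h2'], ?_⟩
  · rw [A.add]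
    exact h1.append (A.stp c hs) (h1'.map (A.F c) fun a b hab => A.stp c hab)
  · rintro g (hg | hg)
    · obtain ⟨j, hj⟩ := h3 g hg
      exact ⟨j, List.mem_append_left _ hj⟩
    · obtain ⟨j, hj⟩ := h3' g hg
      exact ⟨c + j, List.mem_append_right _ (List.mem_map.2 ⟨_, hj, (A.add _ _ _).symm⟩)⟩

theorem Act.Seg.of_eq {x z : Perm (Option (ZMod m))} {c c' : ZMod m} {l l' : ℕ}
    {S S' : Set (Perm (Option (ZMod m)))} (h : A.Seg x z c l S) (hc : c = c') (hl : l = l')
    (hS : S' ⊆ S) : A.Seg x z c' l' S' := by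
  obtain ⟨L, h1, h2, h3⟩ := h
  exact ⟨L, hc ▸ h1, hl ▸ h2, fun g hg => h3 g (hS hg)⟩

theorem Act.seg_of_walk {x z : Perm (Option (ZMod m))} {L : List (Perm (Option (ZMod m)))}
    (h : Walk Stp x z L) : A.Seg x z 0 L.length {g | g ∈ L} :=
  ⟨L, by rw [A.zero]; exact h, rfl, fun g hg => ⟨0, by rw [A.zero]; exact hg⟩⟩

theorem Act.seg_single (x : Perm (Option (ZMod m))) : A.Seg x x 0 1 {x} :=
  Act.Seg.of_eq A (A.seg_of_walk (Walk.single x)) rfl rfl (by simp)

theorem Act.Seg.shift {x z : Perm (Option (ZMod m))} {c d : ZMod m} {l : ℕ}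
    {S : Set (Perm (Option (ZMod m)))} (h : A.Seg x (A.F d z) c l S) : A.Seg x z (c + d) l S := by
  obtain ⟨L, h1, h2, h3⟩ := h
  exact ⟨L, by rw [A.add]; exact h1, h2, h3⟩

/-- Lifting a transversal path. -/
theorem Act.lift {x z : Perm (Option (ZMod m))} {c d : ZMod m} {M : ℕ}
    {S : Set (Perm (Option (ZMod m)))} (h : A.Seg x z c M S) (hz : Stp z (A.F d x))
    (hS : ∀ g, ∃ j, A.F j g ∈ S) (hu : IsUnit (c + d)) :
    Bal (none : Option (ZMod m)) (m * M) M := by
  obtain ⟨L, h1, h2, h3⟩ := h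
  have h4 : Walk Stp x (A.F (c + d) x) (L ++ [A.F (c + d) x]) :=
    h1.append (by rw [A.add]; exact A.stp c hz) (Walk.single _)
  obtain ⟨v', -, -, hM, -, -⟩ := h1.exists_fun
  rw [h2] at hM
  obtain ⟨v, v0, v1, -, v2, v3⟩ := h4.exists_fun
  simp only [List.length_append, List.length_singleton, h2, Nat.add_sub_cancel] at v1 v2 v3
  obtain ⟨u, hu⟩ := hu.exists_right_inv
  set e := c + d with he
  have v4 : ∀ t, ∃ p : ZMod m, t < M → v (t + 1) = v t * st p := by
    intro t
    by_cases ht : t < M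
    · obtain ⟨p, hp⟩ := v2 t (by omega)
      exact ⟨p, fun _ => hp⟩
    · exact ⟨0, fun h => absurd h ht⟩
  choose lab hlab using v4
  have hcov : ∀ g, ∃ j, ∃ t < M, g = A.F j (v t) := by
    intro g
    obtain ⟨j, hj⟩ := hS g
    obtain ⟨j', hj'⟩ := h3 _ hj
    obtain ⟨t, ht, hv⟩ := v3 _ (List.mem_append_left _ hj')
    by_cases htM : t < M
    · refine ⟨-(j' + j), t, htM, ?_⟩
      rw [hv, ← A.add, ← A.add, ← A.zero g]
      rw [← A.add]
      congr 1
      ring
    · have : t = M := by omega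
      subst this
      refine ⟨-(j' + j) + e, 0, hM, ?_⟩
      rw [A.add, v0, ← v1, hv, ← A.add, ← A.add, ← A.zero g, ← A.add]
      congr 1
      ring
  have hval : ∀ (j : ZMod m) (t : ℕ), t < M →
      ((j * u).val * M + t) / M = (j * u).val ∧ ((j * u).val * M + t) % M = t ∧
        (j * u).val * M + t < m * M ∧ (((j * u).val : ℕ) : ZMod m) * e = j := by
    intro j t ht
    refine ⟨?_, ?_, ?_, ?_⟩
    · rw [add_comm, Nat.add_mul_div_right _ _ hM, Nat.div_eq_of_lt ht, zero_add]
    · rw [add_comm, Nat.add_mul_mod_self_right, Nat.mod_eq_of_lt ht]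
    · have := ZMod.val_lt (j * u)
      nlinarith
    · rw [ZMod.natCast_zmod_val, mul_assoc, mul_comm u e, hu, mul_one]
  refine ⟨fun t => A.F (((t / M : ℕ) : ZMod m) * e) (v (t % M)),
    fun t => some (lab (t % M) - ((t / M : ℕ) : ZMod m) * e), ?_, ?_, ?_, ?_⟩
  · intro t _
    refine ⟨by simp, ?_⟩
    have hr : t % M < M := Nat.mod_lt _ hM
    have h5 := hlab (t % M) hr
    show A.F _ _ = A.F _ _ * st _
    rw [← A.step, ← h5]
    have hdiv := Nat.div_add_mod t M
    by_cases h6 : t % M + 1 < M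
    · have h7 : (t + 1) / M = t / M := by
        rw [Nat.div_eq_iff hM]
        constructor
        · rw [mul_comm]; omega
        · rw [mul_comm]; omega
      have h8 : (t + 1) % M = t % M + 1 := by
        have := Nat.div_add_mod (t + 1) M
        rw [h7] at this
        omega
      rw [h7, h8]
    · have h9 : t % M + 1 = M := by omega
      have h10 : t + 1 = M * (t / M + 1) := by rw [mul_add]; omega
      have h7 : (t + 1) / M = t / M + 1 := by rw [h10, Nat.mul_div_cancel_left _ hM]
      have h8 : (t + 1) % M = 0 := by rw [h10, Nat.mul_mod_right]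
      rw [h7, h8, h9, v1, v0, ← A.add]
      congr 1
      push_cast
      ring
  · simp only [Nat.mul_div_cancel _ hM, Nat.mul_mod_left, Nat.zero_div, Nat.zero_mod,
      ZMod.natCast_self, Nat.cast_zero]
  · intro g
    obtain ⟨j, t, ht, rfl⟩ := hcov g
    obtain ⟨a1, a2, a3, a4⟩ := hval j t ht
    exact ⟨_, a3, by simp only [a1, a2, a4]⟩
  · intro i hi
    obtain ⟨i, rfl⟩ := Option.ne_none_iff_exists'.1 hi
    conv_rhs => rw [← Finset.card_range M]
    refine Finset.card_nbij' (fun t => t % M) (fun t => ((lab t - i) * u).val * M + t) ?_ ?_ ?_ ?_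
    · intro t _
      simpa using Nat.mod_lt _ hM
    · intro t ht
      have ht' : t < M := by simpa using ht
      obtain ⟨a1, a2, a3, a4⟩ := hval (lab t - i) t ht'
      simp only [Finset.coe_filter, Finset.mem_range, Set.mem_ofPred_eq, a1, a2, a4]
      exact ⟨a3, by simp⟩
    · intro t ht
      simp only [Finset.coe_filter, Finset.mem_range, Set.mem_ofPred_eq, Option.some.injEq] at ht
      obtain ⟨h5, h6⟩ := ht
      have h7 : (lab (t % M) - i) * u = ((t / M : ℕ) : ZMod m) := by
        rw [← h6, sub_sub_cancel, mul_assoc, hu, mul_one]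
      have h8 : t / M < m := by
        rw [Nat.div_lt_iff_lt_mul hM]; exact h5
      show ((lab (t % M) - i) * u).val * M + t % M = t
      rw [h7, ZMod.val_natCast, Nat.mod_eq_of_lt h8, mul_comm]
      exact Nat.div_add_mod t M
    · intro t ht
      have ht' : t < M := by simpa using ht
      exact (hval (lab t - i) t ht').2.1

end Pool.Agent.Lib.MP_c0b3d0_co
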